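import Pool.Agent.D0H77.EM.FamJ
import Pool.Agent.N880.HD.Fin

/-! Final form. -/

set_option autoImplicit false

open Complex Filter Topology Set MeasureTheory
open H370 (zset mult NN Nd Ns GoodL)

namespace Pool.Agent.D0H77.EM

open H385 (LF Rw)
open Pool.Agent.N880.HD (cH cH_anti cH_le const_main gauss_main winC_main)

theorem hms : S_msE := ms_main gauss_main winC_main Pool.Agent.N880.QF.Rest.rest_main

theorem fin_gen (G : (ℂ → ℂ) → ℝ → ℝ)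
    (hG : ∀ γ : ℝ, 0 < γ → γ < Real.pi → FamIneq γ G) (h ε : ℝ) (hh0 : 0 < h) (hh1 : h ≤ 1)
    (hε : 0 < ε) :
    ∃ K : ℝ, ∀ (q : ℕ) [NeZero q] (d : ℕ) (_ : d ∣ q) (ψ : DirichletCharacter ℂ q)
      (_ : ψ.IsPrimitive) (T : ℝ), K ≤ q * T → 4 * (Real.log q) ^ 2 ≤ T → (q * T) ^ h ≤ d * T →
      ∑ χ ∈ FF d ψ, G (LF q χ) T ≤ (cH h + ε) * ∑ χ ∈ FF d ψ, (NN (LF q χ) T (2 * T) : ℝ) := by
  obtain ⟨g1, g2, g3⟩ := const_main h hh0 (by linarith)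
  refine core_main hms h (Real.sqrt 2 * h) (cH h + ε) hh0 hh1 g1 g2 ?_ G (hG _ g1 g2)
  have : Rw (Real.sqrt 2 * h) 0 / h + 2 * h * (∫ α in (0 : ℝ)..1, α * Rw (Real.sqrt 2 * h) α) =
      cH h := by
    unfold cH
    rw [← g3]
    ring
  rw [this]
  linarith

theorem fin_s (h ε : ℝ) (hh0 : 0 < h) (hh1 : h ≤ 1) (hε : 0 < ε) :
    ∃ K : ℝ, ∀ (q : ℕ) [NeZero q] (d : ℕ) (_ : d ∣ q) (ψ : DirichletCharacter ℂ q)
      (_ : ψ.IsPrimitive) (T : ℝ), K ≤ q * T → 4 * (Real.log q) ^ 2 ≤ T → (q * T) ^ h ≤ d * T →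
      (2 - cH h - ε) * ∑ χ ∈ FF d ψ, (NN (LF q χ) T (2 * T) : ℝ) ≤
        ∑ χ ∈ FF d ψ, (Ns (LF q χ) T (2 * T) : ℝ) := by
  obtain ⟨K, hK⟩ := fin_gen _ famIneq_s h ε hh0 hh1 hε
  refine ⟨K, fun q _ d hd ψ hψ T h1 h2 h3 => ?_⟩
  have h4 := hK q d hd ψ hψ T h1 h2 h3
  rw [Finset.sum_sub_distrib, ← Finset.mul_sum] at h4
  linarith

theorem fin_j (j : ℕ) (h ε : ℝ) (hh0 : 0 < h) (hh1 : h ≤ 1) (hε : 0 < ε) :
    ∃ K : ℝ, ∀ (q : ℕ) [NeZero q] (d : ℕ) (_ : d ∣ q) (ψ : DirichletCharacter ℂ q)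
      (_ : ψ.IsPrimitive) (T : ℝ), K ≤ q * T → 4 * (Real.log q) ^ 2 ≤ T → (q * T) ^ h ≤ d * T →
      (2 * j + 1 - cH h - ε) * ∑ χ ∈ FF d ψ, (NN (LF q χ) T (2 * T) : ℝ) +
        ∑ χ ∈ FF d ψ, (EX j (LF q χ) T (2 * T) : ℝ) +
        ((j : ℝ) ^ 2 + 1) / 2 * ∑ χ ∈ FF d ψ, (NF (LF q χ) T (2 * T) : ℝ) ≤
      j * (j + 1) * ∑ χ ∈ FF d ψ, (Nd (LF q χ) T (2 * T) : ℝ) := by
  obtain ⟨K, hK⟩ := fin_gen _ (famIneq_j j) h ε hh0 hh1 hε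
  refine ⟨K, fun q _ d hd ψ hψ T h1 h2 h3 => ?_⟩
  have h4 := hK q d hd ψ hψ T h1 h2 h3
  unfold GJ at h4
  rw [Finset.sum_add_distrib, Finset.sum_add_distrib, Finset.sum_sub_distrib, ← Finset.mul_sum,
    ← Finset.mul_sum, ← Finset.mul_sum] at h4
  linarith

/-! ### the bound `c(h) ≤ 1/h + h/3` -/

lemma sin_sub_nonneg {x : ℝ} (h0 : 0 ≤ x) (h1 : x ≤ 1) : x * Real.cos x ≤ Real.sin x := by
  rcases h0.eq_or_lt with rfl | h0
  · simp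
  have hpi := Real.pi_gt_three
  have h2 := Real.lt_tan h0 (by linarith)
  have hc : 0 < Real.cos x := Real.cos_pos_of_mem_Ioo ⟨by linarith, by linarith⟩
  rw [Real.tan_eq_sin_div_cos, lt_div_iff₀ hc] at h2
  exact h2.le

lemma cot_aux {x : ℝ} (h0 : 0 ≤ x) (h1 : x ≤ 1) :
    x * Real.cos x ≤ (1 - x ^ 2 / 3) * Real.sin x := by
  have hmono : MonotoneOn (fun x : ℝ => (1 - x ^ 2 / 3) * Real.sin x - x * Real.cos x)
      (Set.Icc 0 1) := by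
    have hd : ∀ x : ℝ, HasDerivAt (fun x : ℝ => (1 - x ^ 2 / 3) * Real.sin x - x * Real.cos x)
        (x / 3 * (Real.sin x - x * Real.cos x)) x := by
      intro x
      have h1 : HasDerivAt (fun x : ℝ => 1 - x ^ 2 / 3) (-(2 * x / 3)) x := by
        have := ((hasDerivAt_id x).fun_pow 2).div_const 3
        have h2 := this.const_sub 1
        refine h2.congr_deriv ?_
        simp
      have h3 := (h1.mul (Real.hasDerivAt_sin x)).sub ((hasDerivAt_id x).mul (Real.hasDerivAt_cos x))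
      refine h3.congr_deriv ?_
      simp only [id]
      ring
    apply monotoneOn_of_deriv_nonneg (convex_Icc 0 1)
    · exact fun x _ => (hd x).continuousAt.continuousWithinAt
    · exact fun x _ => (hd x).differentiableAt.differentiableWithinAt
    · intro x hx
      rw [interior_Icc] at hx
      rw [(hd x).deriv]
      have := sin_sub_nonneg hx.1.le hx.2.le
      have h3 := hx.1
      apply mul_nonneg (by linarith) (by linarith)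
  have h2 := hmono (show (0 : ℝ) ∈ Set.Icc (0 : ℝ) 1 by simp)
    (show x ∈ Set.Icc (0 : ℝ) 1 from ⟨h0, h1⟩) h0
  simp only at h2
  norm_num at h2
  linarith

/-- `c(h) ≤ 1/h + h/3` -/
theorem cH_le' (h : ℝ) (h0 : 0 < h) (h1 : h ≤ 1) : cH h ≤ 1 / h + h / 3 := by
  have hs : (0 : ℝ) < Real.sqrt 2 := by positivity
  have hs2 : Real.sqrt 2 ^ 2 = 2 := Real.sq_sqrt (by norm_num)
  have hs1 : 1 < Real.sqrt 2 := Real.one_lt_sqrt_two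
  set x := h / Real.sqrt 2 with hx
  have hx0 : 0 < x := by positivity
  have hx1 : x ≤ 1 := by
    rw [hx, div_le_one hs]; linarith
  have hpi := Real.pi_gt_three
  have hsin : 0 < Real.sin x := Real.sin_pos_of_pos_of_lt_pi hx0 (by linarith)
  have h2 := cot_aux hx0.le hx1
  have h3 : Real.cot x ≤ (1 - x ^ 2 / 3) / x := by
    rw [Real.cot_eq_cos_div_sin, div_le_div_iff₀ hsin hx0]
    linarith
  unfold cH
  rw [← hx]
  have h4 : Real.cot x / Real.sqrt 2 ≤ (1 - x ^ 2 / 3) / x / Real.sqrt 2 :=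
    div_le_div_of_nonneg_right h3 hs.le
  have h5 : (1 - x ^ 2 / 3) / x / Real.sqrt 2 = 1 / h - h / 6 := by
    rw [hx, div_pow, hs2]
    field_simp
    ring
  linarith

/-- the chord of `1 / x` lies above the function -/
lemma chord (x : ℝ) (hx : 1 ≤ x) : ∃ j : ℕ, 1 ≤ j ∧ 1 / x ≤ (2 * j + 1 - x) / (j * (j + 1)) := by
  have hx0 : 0 ≤ x := by linarith
  refine ⟨⌊x⌋₊, (Nat.one_le_floor_iff x).mpr hx, ?_⟩
  have h1 : ((⌊x⌋₊ : ℕ) : ℝ) ≤ x := Nat.floor_le hx0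
  have h2 : x < (⌊x⌋₊ : ℕ) + 1 := Nat.lt_floor_add_one x
  have h3 : 1 ≤ ((⌊x⌋₊ : ℕ) : ℝ) := by exact_mod_cast (Nat.one_le_floor_iff x).mpr hx
  set a : ℝ := ((⌊x⌋₊ : ℕ) : ℝ) with ha
  rw [div_le_div_iff₀ (by linarith) (by positivity)]
  nlinarith [mul_nonneg (sub_nonneg.mpr h1) (sub_nonneg.mpr h2.le)]

theorem fin_pos (h ε : ℝ) (hh0 : 0 < h) (hh1 : h ≤ 1) (hε : 0 < ε) :
    ∃ K : ℝ, ∀ (q : ℕ) [NeZero q] (d : ℕ) (_ : d ∣ q) (ψ : DirichletCharacter ℂ q)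
      (_ : ψ.IsPrimitive) (T : ℝ), K ≤ q * T → 4 * (Real.log q) ^ 2 ≤ T → (q * T) ^ h ≤ d * T →
      (3 * h / (3 + h ^ 2) - ε) * ∑ χ ∈ FF d ψ, (NN (LF q χ) T (2 * T) : ℝ) ≤
        ∑ χ ∈ FF d ψ, (Nd (LF q χ) T (2 * T) : ℝ) := by
  have hx := cH_le' h hh0 hh1
  have hx1 : 1 ≤ 1 / h + h / 3 := by
    have : 1 ≤ 1 / h := by rw [le_div_iff₀ hh0]; linarith
    have : 0 ≤ h / 3 := by positivity
    linarith
  obtain ⟨j, hj, hjc⟩ := chord (1 / h + h / 3) hx1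
  have hj1 : (1 : ℝ) ≤ j := by exact_mod_cast hj
  have hjj : 0 < (j : ℝ) * (j + 1) := by positivity
  obtain ⟨K, hK⟩ := fin_j j h (j * (j + 1) * ε) hh0 hh1 (by positivity)
  refine ⟨K, fun q _ d hd ψ hψ T h1 h2 h3 => ?_⟩
  have h4 := hK q d hd ψ hψ T h1 h2 h3
  have e1 : 3 * h / (3 + h ^ 2) = 1 / (1 / h + h / 3) := by
    field_simp
  have e2 : 3 * h / (3 + h ^ 2) * (j * (j + 1)) ≤ 2 * j + 1 - cH h := by
    rw [e1]
    rw [le_div_iff₀ hjj] at hjc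
    linarith
  have n1 : 0 ≤ ∑ χ ∈ FF d ψ, (NN (LF q χ) T (2 * T) : ℝ) :=
    Finset.sum_nonneg fun _ _ => Nat.cast_nonneg _
  have n2 : 0 ≤ ∑ χ ∈ FF d ψ, (EX j (LF q χ) T (2 * T) : ℝ) :=
    Finset.sum_nonneg fun _ _ => Nat.cast_nonneg _
  have n3 : 0 ≤ ((j : ℝ) ^ 2 + 1) / 2 * ∑ χ ∈ FF d ψ, (NF (LF q χ) T (2 * T) : ℝ) :=
    mul_nonneg (by positivity) (Finset.sum_nonneg fun _ _ => Nat.cast_nonneg _)
  refine le_of_mul_le_mul_left ?_ hjj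
  have e3 := mul_le_mul_of_nonneg_right e2 n1
  have e4 : (j : ℝ) * (j + 1) * ((3 * h / (3 + h ^ 2) - ε) *
      ∑ χ ∈ FF d ψ, (NN (LF q χ) T (2 * T) : ℝ)) =
      3 * h / (3 + h ^ 2) * (j * (j + 1)) * ∑ χ ∈ FF d ψ, (NN (LF q χ) T (2 * T) : ℝ) -
      j * (j + 1) * ε * ∑ χ ∈ FF d ψ, (NN (LF q χ) T (2 * T) : ℝ) := by ring
  rw [e4]
  linarith

end Pool.Agent.D0H77.EM
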