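import Pool.Agent.D0H77.EM.Coset

/-! The mean square over a coset of characters, for coefficients in a block. -/

set_option autoImplicit false

open Finset DirichletCharacter

namespace Pool.Agent.D0H77.EM

lemma count_block {M H e m : ℕ} (he : 0 < e) (hm : m ∈ Ioc M (M + H)) :
    ((((Ioc M (M + H)).filter (fun n => n ≡ m [MOD e])).card : ℕ) : ℝ) ≤ ((H : ℝ) - 1) / e + 1 := by
  have h := Nat.Ioc_filter_modEq_card M (M + H) he m
  rw [mem_Ioc] at hm
  have he0 : (0 : ℝ) < e := by exact_mod_cast he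
  have heq : (0 : ℚ) < e := by exact_mod_cast he
  obtain ⟨c, hc⟩ : ∃ c, c = ((Ioc M (M + H)).filter (fun n => n ≡ m [MOD e])).card := ⟨_, rfl⟩
  rw [← hc] at h ⊢
  obtain ⟨A, hA⟩ : ∃ A : ℤ, A = ⌊(((M + H : ℕ) : ℚ) - m) / e⌋ := ⟨_, rfl⟩
  obtain ⟨B, hB⟩ : ∃ B : ℤ, B = ⌊((M : ℚ) - m) / e⌋ := ⟨_, rfl⟩
  rw [← hA, ← hB] at h
  have h1 : (A : ℚ) * e ≤ ((M + H : ℕ) : ℚ) - m := by
    rw [← le_div_iff₀ heq, hA]
    exact Int.floor_le _
  have h2 : ((M : ℚ) - m) < (B + 1) * e := by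
    rw [← div_lt_iff₀ heq, hB]
    exact Int.lt_floor_add_one _
  have h1' : A * e ≤ ((M + H : ℕ) : ℤ) - m := by exact_mod_cast h1
  have h2' : ((M : ℤ) - m) < (B + 1) * e := by exact_mod_cast h2
  have h3 : (A - B) * e ≤ (H : ℤ) + e - 1 := by
    push_cast at h1'
    nlinarith
  have h4 : (c : ℤ) * e ≤ (H : ℤ) + e - 1 := by
    rw [h]
    rcases le_total (A - B) 0 with h5 | h5
    · rw [max_eq_right h5]
      have : (1 : ℤ) ≤ e := by exact_mod_cast he
      have : (0 : ℤ) ≤ H := by positivity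
      linarith
    · rw [max_eq_left h5]
      exact h3
  have h5 : (c : ℝ) * e ≤ (H : ℝ) + e - 1 := by exact_mod_cast h4
  rw [← sub_le_iff_le_add, le_div_iff₀ he0]
  linarith

variable {q : ℕ} [NeZero q]

/-- the majorant of the kernel -/
noncomputable def ww (q d m n : ℕ) : ℝ :=
  ∑ P ∈ q.divisors, (if m ≡ n [MOD d.gcd (q / P)] then ((d.gcd (q / P)).totient : ℝ) else 0)

lemma ww_symm (q d m n : ℕ) : ww q d m n = ww q d n m := by
  unfold ww
  refine sum_congr rfl fun P _ => ?_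
  by_cases h : m ≡ n [MOD d.gcd (q / P)]
  · rw [if_pos h, if_pos h.symm]
  · rw [if_neg h, if_neg (fun h' => h h'.symm)]

lemma ww_nonneg (q d m n : ℕ) : 0 ≤ ww q d m n := by
  unfold ww
  refine sum_nonneg fun P _ => ?_
  split_ifs
  · exact Nat.cast_nonneg _
  · exact le_rfl

lemma kernel_ww {d : ℕ} (hd : d ∣ q) (ψ : DirichletCharacter ℂ q) (m n : ℕ) :
    ‖∑ χ ∈ FF d ψ, χ (m : ZMod q) * (starRingEnd ℂ) (χ (n : ZMod q))‖ ≤ ww q d m n := by
  by_cases hn : IsUnit (n : ZMod q)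
  · by_cases hm : IsUnit (m : ZMod q)
    · obtain ⟨v, hv⟩ := hn
      obtain ⟨u, hu⟩ := hm
      have h1 : ∀ χ : DirichletCharacter ℂ q, χ (m : ZMod q) * (starRingEnd ℂ) (χ (n : ZMod q)) =
          χ ((u * v⁻¹ : (ZMod q)ˣ) : ZMod q) := by
        intro χ
        rw [← hu, ← hv, Units.val_mul, map_mul]
        congr 1
        have h2 := MulChar.star_apply' χ (v : ZMod q)
        rw [Complex.star_def] at h2
        rw [h2, MulChar.inv_apply, Ring.inverse_unit]
      simp only [h1]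
      refine (kernel_bound hd ψ (u * v⁻¹)).trans (le_of_eq ?_)
      unfold ww
      refine sum_congr rfl fun P _ => ?_
      obtain ⟨e, he⟩ : ∃ e, e = d.gcd (q / P) := ⟨_, rfl⟩
      have heq : e ∣ q := by rw [he]; exact (Nat.gcd_dvd_left _ _).trans hd
      have h3 : (ZMod.castHom heq (ZMod e) ((u * v⁻¹ : (ZMod q)ˣ) : ZMod q) = 1) ↔
          m ≡ n [MOD e] := by
        rw [← ZMod.natCast_eq_natCast_iff]
        have e1 : (ZMod.castHom heq (ZMod e) ((u * v⁻¹ : (ZMod q)ˣ) : ZMod q)) *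
            ZMod.castHom heq (ZMod e) (n : ZMod q) = (m : ZMod e) := by
          rw [← map_mul, ← hv, ← Units.val_mul, inv_mul_cancel_right, hu, map_natCast]
        rw [map_natCast] at e1
        have hun : IsUnit (n : ZMod e) := by
          have : IsUnit (ZMod.castHom heq (ZMod e) (n : ZMod q)) :=
            IsUnit.map (ZMod.castHom heq (ZMod e)) ⟨v, hv⟩
          rwa [map_natCast] at this
        constructor
        · intro h
          rw [h, one_mul] at e1
          exact e1.symm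
        · intro h
          rw [h] at e1
          exact (hun.mul_eq_right).1 e1
      subst he
      by_cases h : m ≡ n [MOD d.gcd (q / P)]
      · rw [if_pos h, if_pos (h3.2 h)]
      · rw [if_neg h, if_neg (fun h' => h (h3.1 h'))]
    · have h1 : ∀ χ : DirichletCharacter ℂ q, χ (m : ZMod q) * (starRingEnd ℂ) (χ (n : ZMod q)) =
          0 := by
        intro χ
        rw [MulChar.map_nonunit χ hm, zero_mul]
      simp only [h1, sum_const_zero, norm_zero]
      exact ww_nonneg _ _ _ _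
  · have h1 : ∀ χ : DirichletCharacter ℂ q, χ (m : ZMod q) * (starRingEnd ℂ) (χ (n : ZMod q)) =
          0 := by
      intro χ
      rw [MulChar.map_nonunit χ hn, map_zero, mul_zero]
    simp only [h1, sum_const_zero, norm_zero]
    exact ww_nonneg _ _ _ _

/-- the mean square over the family for coefficients in a block -/
theorem block_ms {d : ℕ} (hd : d ∣ q) (ψ : DirichletCharacter ℂ q) {M H : ℕ} {R : ℝ} (hR : 0 ≤ R)
    (hH : (H : ℝ) ≤ R + 1) (S : Finset ℕ) (hS : S ⊆ Ioc M (M + H)) (x : ℕ → ℂ) :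
    ∑ χ ∈ FF d ψ, ‖∑ n ∈ S, χ (n : ZMod q) * x n‖ ^ 2 ≤
      ((FF d ψ).card + q.divisors.card * R) * ∑ n ∈ S, ‖x n‖ ^ 2 := by
  classical
  have hq0 : 0 < q := Nat.pos_of_ne_zero (NeZero.ne q)
  have hd0 : 0 < d := Nat.pos_of_dvd_of_pos hd hq0
  -- expansion
  have h1 : ∑ χ ∈ FF d ψ, ‖∑ n ∈ S, χ (n : ZMod q) * x n‖ ^ 2 =
      (∑ m ∈ S, ∑ n ∈ S, (x m * (starRingEnd ℂ) (x n)) *
        ∑ χ ∈ FF d ψ, χ (m : ZMod q) * (starRingEnd ℂ) (χ (n : ZMod q))).re := by
    have h2 : ∀ χ : DirichletCharacter ℂ q, ((‖∑ n ∈ S, χ (n : ZMod q) * x n‖ ^ 2 : ℝ) : ℂ) =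
        ∑ m ∈ S, ∑ n ∈ S, (x m * (starRingEnd ℂ) (x n)) *
          (χ (m : ZMod q) * (starRingEnd ℂ) (χ (n : ZMod q))) := by
      intro χ
      rw [← Complex.normSq_eq_norm_sq, ← Complex.mul_conj, map_sum, sum_mul_sum]
      refine sum_congr rfl fun m _ => sum_congr rfl fun n _ => ?_
      rw [map_mul]
      ring
    have h3 : ((∑ χ ∈ FF d ψ, ‖∑ n ∈ S, χ (n : ZMod q) * x n‖ ^ 2 : ℝ) : ℂ) =
        ∑ m ∈ S, ∑ n ∈ S, (x m * (starRingEnd ℂ) (x n)) *
        ∑ χ ∈ FF d ψ, χ (m : ZMod q) * (starRingEnd ℂ) (χ (n : ZMod q)) := by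
      rw [Complex.ofReal_sum, sum_congr rfl (fun χ _ => h2 χ), sum_comm]
      refine sum_congr rfl fun m _ => ?_
      rw [sum_comm]
      refine sum_congr rfl fun n _ => ?_
      rw [mul_sum]
    rw [← h3, Complex.ofReal_re]
  -- the terms
  have h2 : ∀ m ∈ S, ∀ n ∈ S, ((x m * (starRingEnd ℂ) (x n)) *
        ∑ χ ∈ FF d ψ, χ (m : ZMod q) * (starRingEnd ℂ) (χ (n : ZMod q))).re ≤
      (if m = n then (FF d ψ).card * ‖x m‖ ^ 2 else 0) +
        (if m = n then 0 else (‖x m‖ ^ 2 * ww q d m n + ‖x n‖ ^ 2 * ww q d n m) / 2) := by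
    intro m _ n _
    refine (Complex.re_le_norm _).trans ?_
    rw [norm_mul, norm_mul, RCLike.norm_conj]
    by_cases h : m = n
    · subst h
      rw [if_pos rfl, if_pos rfl, add_zero]
      have h3 : ‖∑ χ ∈ FF d ψ, χ (m : ZMod q) * (starRingEnd ℂ) (χ (m : ZMod q))‖ ≤
          ((FF d ψ).card : ℝ) := by
        have h4 : ∀ χ ∈ FF d ψ, ‖χ (m : ZMod q) * (starRingEnd ℂ) (χ (m : ZMod q))‖ ≤ (1 : ℝ) := by
          intro χ _
          rw [norm_mul, RCLike.norm_conj]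
          have := DirichletCharacter.norm_le_one χ (m : ZMod q)
          exact mul_le_one₀ this (norm_nonneg _) this
        refine ((norm_sum_le _ _).trans (sum_le_sum h4)).trans (le_of_eq ?_)
        rw [sum_const, nsmul_eq_mul, mul_one]
      calc ‖x m‖ * ‖x m‖ * _ ≤ ‖x m‖ * ‖x m‖ * ((FF d ψ).card : ℝ) :=
            mul_le_mul_of_nonneg_left h3 (by positivity)
        _ = _ := by ring
    · rw [if_neg h, if_neg h, zero_add, ww_symm q d n m]
      have h3 := kernel_ww hd ψ m n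
      calc ‖x m‖ * ‖x n‖ * _ ≤ ‖x m‖ * ‖x n‖ * ww q d m n :=
            mul_le_mul_of_nonneg_left h3 (by positivity)
        _ ≤ ((‖x m‖ ^ 2 + ‖x n‖ ^ 2) / 2) * ww q d m n := by
            refine mul_le_mul_of_nonneg_right ?_ (ww_nonneg _ _ _ _)
            nlinarith [sq_nonneg (‖x m‖ - ‖x n‖)]
        _ = _ := by ring
  have h3 : ∀ m ∈ S, ∑ n ∈ S, (if m = n then 0 else ww q d m n) ≤ q.divisors.card * R := by
    intro m hm
    have hmI := hS hm
    unfold ww
    have h4 : ∑ n ∈ S, (if m = n then (0 : ℝ) else ∑ P ∈ q.divisors,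
        (if m ≡ n [MOD d.gcd (q / P)] then ((d.gcd (q / P)).totient : ℝ) else 0)) =
        ∑ P ∈ q.divisors, ∑ n ∈ S.filter (fun n => m ≠ n),
          (if m ≡ n [MOD d.gcd (q / P)] then ((d.gcd (q / P)).totient : ℝ) else 0) := by
      rw [sum_comm, sum_filter]
      refine sum_congr rfl fun n _ => ?_
      by_cases h : m = n
      · rw [if_pos h, if_neg (fun h' => h' h)]
      · rw [if_neg h, if_pos h]
    rw [h4]
    have h5 : ∀ P ∈ q.divisors, ∑ n ∈ S.filter (fun n => m ≠ n),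
          (if m ≡ n [MOD d.gcd (q / P)] then ((d.gcd (q / P)).totient : ℝ) else 0) ≤ R := by
      intro P _
      obtain ⟨e, he⟩ : ∃ e, e = d.gcd (q / P) := ⟨_, rfl⟩
      rw [← he]
      have he0 : 0 < e := by rw [he]; exact Nat.gcd_pos_of_pos_left _ hd0
      have he0' : (0 : ℝ) < e := by exact_mod_cast he0
      rw [← sum_filter, sum_const, nsmul_eq_mul]
      have h6 : ((((S.filter (fun n => m ≠ n)).filter (fun n => m ≡ n [MOD e])).card : ℕ) : ℝ) ≤
          R / e := by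
        have h7 : ((S.filter (fun n => m ≠ n)).filter (fun n => m ≡ n [MOD e])) ⊆
            ((Ioc M (M + H)).filter (fun n => n ≡ m [MOD e])).erase m := by
          intro n hn
          simp only [mem_filter] at hn
          rw [mem_erase, mem_filter]
          exact ⟨fun h => hn.1.2 h.symm, hS hn.1.1, hn.2.symm⟩
        have h8 := card_le_card h7
        have h9 : m ∈ (Ioc M (M + H)).filter (fun n => n ≡ m [MOD e]) := by
          rw [mem_filter]
          exact ⟨hmI, Nat.ModEq.refl _⟩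
        rw [card_erase_of_mem h9] at h8
        have h10 := count_block he0 hmI
        have h11 : 1 ≤ ((Ioc M (M + H)).filter (fun n => n ≡ m [MOD e])).card :=
          card_pos.2 ⟨m, h9⟩
        have h12 : ((((S.filter (fun n => m ≠ n)).filter (fun n => m ≡ n [MOD e])).card : ℕ) : ℝ) ≤
            ((((Ioc M (M + H)).filter (fun n => n ≡ m [MOD e])).card : ℕ) : ℝ) - 1 := by
          have := (Nat.cast_le (α := ℝ)).2 h8
          rwa [Nat.cast_sub h11, Nat.cast_one] at this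
        refine h12.trans ?_
        have h13 : ((H : ℝ) - 1) / e ≤ R / e := div_le_div_of_nonneg_right (by linarith) he0'.le
        linarith
      have h14 : (e.totient : ℝ) ≤ e := by exact_mod_cast Nat.totient_le e
      calc _ ≤ (R / e) * (e : ℝ) := mul_le_mul h6 h14 (Nat.cast_nonneg _) (by positivity)
        _ = R := by field_simp
    calc _ ≤ ∑ P ∈ q.divisors, R := sum_le_sum h5
      _ = _ := by rw [sum_const, nsmul_eq_mul]
  rw [h1, Complex.re_sum]
  have h4 : ∑ m ∈ S, (∑ n ∈ S, (x m * (starRingEnd ℂ) (x n)) *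
        ∑ χ ∈ FF d ψ, χ (m : ZMod q) * (starRingEnd ℂ) (χ (n : ZMod q))).re ≤
      ∑ m ∈ S, ∑ n ∈ S, ((if m = n then (FF d ψ).card * ‖x m‖ ^ 2 else 0) +
        (if m = n then 0 else (‖x m‖ ^ 2 * ww q d m n + ‖x n‖ ^ 2 * ww q d n m) / 2)) := by
    refine sum_le_sum fun m hm => ?_
    rw [Complex.re_sum]
    exact sum_le_sum fun n hn => h2 m hm n hn
  refine h4.trans ?_
  have h5 : ∑ m ∈ S, ∑ n ∈ S, (if m = n then ((FF d ψ).card : ℝ) * ‖x m‖ ^ 2 else 0) =
      (FF d ψ).card * ∑ m ∈ S, ‖x m‖ ^ 2 := by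
    rw [mul_sum]
    refine sum_congr rfl fun m hm => ?_
    rw [sum_ite_eq, if_pos hm]
  have h6 : ∑ m ∈ S, ∑ n ∈ S, (if m = n then (0 : ℝ) else
      (‖x m‖ ^ 2 * ww q d m n + ‖x n‖ ^ 2 * ww q d n m) / 2) =
      ∑ m ∈ S, ‖x m‖ ^ 2 * ∑ n ∈ S, (if m = n then 0 else ww q d m n) := by
    have e1 : ∑ m ∈ S, ∑ n ∈ S, (if m = n then (0 : ℝ) else
      (‖x m‖ ^ 2 * ww q d m n + ‖x n‖ ^ 2 * ww q d n m) / 2) =
      (∑ m ∈ S, ∑ n ∈ S, (if m = n then (0 : ℝ) else ‖x m‖ ^ 2 * ww q d m n) / 2) +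
        ∑ m ∈ S, ∑ n ∈ S, (if n = m then (0 : ℝ) else ‖x n‖ ^ 2 * ww q d n m) / 2 := by
      rw [← sum_add_distrib]
      refine sum_congr rfl fun m _ => ?_
      rw [← sum_add_distrib]
      refine sum_congr rfl fun n _ => ?_
      by_cases h : m = n
      · rw [if_pos h, if_pos h, if_pos h.symm]; ring
      · rw [if_neg h, if_neg h, if_neg (fun h' => h h'.symm)]; ring
    rw [e1]
    have e2 : ∑ m ∈ S, ∑ n ∈ S, (if n = m then (0 : ℝ) else ‖x n‖ ^ 2 * ww q d n m) / 2 =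
        ∑ m ∈ S, ∑ n ∈ S, (if m = n then (0 : ℝ) else ‖x m‖ ^ 2 * ww q d m n) / 2 := sum_comm
    rw [e2, ← sum_add_distrib]
    refine sum_congr rfl fun m _ => ?_
    rw [← sum_add_distrib, mul_sum]
    refine sum_congr rfl fun n _ => ?_
    by_cases h : m = n
    · rw [if_pos h, if_pos h]; ring
    · rw [if_neg h, if_neg h]; ring
  have h7 : ∑ m ∈ S, ∑ n ∈ S, ((if m = n then ((FF d ψ).card : ℝ) * ‖x m‖ ^ 2 else 0) +
        (if m = n then 0 else (‖x m‖ ^ 2 * ww q d m n + ‖x n‖ ^ 2 * ww q d n m) / 2)) =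
      ∑ m ∈ S, ∑ n ∈ S, (if m = n then ((FF d ψ).card : ℝ) * ‖x m‖ ^ 2 else 0) +
      ∑ m ∈ S, ∑ n ∈ S, (if m = n then (0 : ℝ) else
      (‖x m‖ ^ 2 * ww q d m n + ‖x n‖ ^ 2 * ww q d n m) / 2) := by
    rw [← sum_add_distrib]
    refine sum_congr rfl fun m _ => ?_
    rw [← sum_add_distrib]
  rw [h7, h5, h6, add_mul]
  refine add_le_add le_rfl ?_
  rw [mul_sum]
  refine sum_le_sum fun m hm => ?_
  rw [mul_comm]
  exact mul_le_mul_of_nonneg_right (h3 m hm) (by positivity)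

end Pool.Agent.D0H77.EM
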