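import Pool.Agent.D0H77.EM.Coset

/-! The number of primitive characters in a coset. -/

set_option autoImplicit false

open Finset DirichletCharacter

namespace Pool.Agent.D0H77.EM

theorem phi_tau (n : ℕ) (hn0 : n ≠ 0) : n ≤ n.totient * n.divisors.card := by
  have h1 : ∑ e ∈ n.divisors, e.totient = n := Nat.sum_totient n
  have h2 : ∑ e ∈ n.divisors, e.totient ≤ ∑ _e ∈ n.divisors, n.totient := by
    refine sum_le_sum fun e he => ?_
    exact Nat.le_of_dvd (Nat.totient_pos.2 (Nat.pos_of_ne_zero hn0))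
      (Nat.totient_dvd_of_dvd (Nat.dvd_of_mem_divisors he))
  rw [h1, sum_const, smul_eq_mul, mul_comm] at h2
  exact h2

theorem two_pow_omega (q : ℕ) (hq : q ≠ 0) : 2 ^ q.primeFactors.card ≤ q.divisors.card := by
  rw [Nat.card_divisors hq, ← Finset.prod_const]
  refine Finset.prod_le_prod' fun p hp => ?_
  have h1 : 1 ≤ q.factorization p :=
    (Nat.prime_of_mem_primeFactors hp).factorization_pos_of_dvd hq (Nat.dvd_of_mem_primeFactors hp)
  omega

variable {q : ℕ} [NeZero q]

/-- a character of `p`-power conductor which does not factor through `q / p` -/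
lemma exists_zeta (ψ : DirichletCharacter ℂ q) (hψ : ψ.IsPrimitive) {p : ℕ} (hp : p ∈ q.primeFactors) :
    ∃ ζ : DirichletCharacter ℂ q, ζ.conductor ∣ p ^ q.factorization p ∧ ¬ ζ.conductor ∣ q / p := by
  classical
  have hq : q ≠ 0 := NeZero.ne q
  have hpp := Nat.prime_of_mem_primeFactors hp
  have hpq := Nat.dvd_of_mem_primeFactors hp
  by_contra hcon
  push Not at hcon
  obtain ⟨a, ha⟩ : ∃ a, a = q.factorization p := ⟨_, rfl⟩
  have ha1 : 1 ≤ a := by rw [ha]; exact hpp.factorization_pos_of_dvd hq hpq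
  obtain ⟨b, rfl⟩ : ∃ b, a = b + 1 := ⟨a - 1, by omega⟩
  rw [← ha] at hcon
  obtain ⟨m, hm⟩ : ∃ m, m = ordCompl[p] q := ⟨_, rfl⟩
  have hqm : q = p ^ (b + 1) * m := by
    rw [hm, ha]; exact (Nat.ordProj_mul_ordCompl_eq_self q p).symm
  have hcop : Nat.Coprime p m := by
    rw [hm]; exact Nat.coprime_ordCompl hpp hq
  have hqp : q / p = p ^ b * m := by
    rw [hqm, pow_succ]
    rw [show p ^ b * p * m = p * (p ^ b * m) by ring]
    exact Nat.mul_div_cancel_left _ hpp.pos
  -- all characters of conductor dividing `p ^ (b + 1)` have conductor dividing `p ^ b`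
  have h1 : XX q (p ^ (b + 1)) ⊆ XX q (p ^ b) := by
    intro χ hχ
    rw [mem_XX] at hχ ⊢
    have h2 := hcon χ hχ
    rw [hqp] at h2
    have h3 : Nat.Coprime χ.conductor m :=
      Nat.Coprime.coprime_dvd_left hχ (Nat.Coprime.pow_left _ hcop)
    exact h3.dvd_of_dvd_mul_right h2
  have h2 := card_le_card h1
  rw [XX_card (by rw [hqm]; exact Dvd.intro _ rfl),
    XX_card (by rw [hqm, pow_succ, mul_assoc]; exact Dvd.intro _ rfl)] at h2
  have h3 : q.totient ≤ (q / p).totient := by
    rw [hqp, Nat.totient_mul (Nat.Coprime.pow_left _ hcop)]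
    conv_lhs => rw [hqm, Nat.totient_mul (Nat.Coprime.pow_left _ hcop)]
    exact Nat.mul_le_mul_right _ h2
  have h4 : (XX q q).card ≤ (XX q (q / p)).card := by
    rw [XX_card (dvd_refl q), XX_card (Nat.div_dvd_of_dvd hpq)]
    exact h3
  have h5 : XX q (q / p) ⊆ XX q q := by
    intro χ _
    rw [mem_XX]
    exact conductor_dvd_level χ
  have h6 := eq_of_subset_of_card_le h5 h4
  have h7 : ψ ∈ XX q (q / p) := by
    rw [h6, mem_XX]
    exact conductor_dvd_level ψ
  rw [mem_XX, (isPrimitive_def ψ).1 hψ] at h7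
  have h8 := Nat.le_of_dvd (Nat.div_pos (Nat.le_of_dvd (Nat.pos_of_ne_zero hq) hpq) hpp.pos) h7
  have h9 := Nat.div_lt_self (Nat.pos_of_ne_zero hq) hpp.one_lt
  omega

/-- avoiding a set of primes -/
noncomputable def BB (d : ℕ) (ψ : DirichletCharacter ℂ q) (S : Finset ℕ) :
    Finset (DirichletCharacter ℂ q) := by
  classical exact univ.filter (fun χ => (χ * ψ⁻¹).conductor ∣ d ∧ ∀ p ∈ S, ¬ χ.conductor ∣ q / p)

omit [NeZero q] in
lemma mem_BB {d : ℕ} {ψ χ : DirichletCharacter ℂ q} {S : Finset ℕ} :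
    χ ∈ BB d ψ S ↔ (χ * ψ⁻¹).conductor ∣ d ∧ ∀ p ∈ S, ¬ χ.conductor ∣ q / p := by
  classical
  unfold BB
  simp

lemma BB_empty {d : ℕ} (hd : d ∣ q) (ψ : DirichletCharacter ℂ q) :
    (BB d ψ ∅).card = d.totient := by
  classical
  rw [← XX_card hd]
  refine card_nbij' (fun χ => χ * ψ⁻¹) (fun η => η * ψ) ?_ ?_ ?_ ?_
  · intro χ hχ
    rw [mem_coe, mem_BB] at hχ
    rw [mem_coe, mem_XX]
    exact hχ.1
  · intro η hη
    rw [mem_coe, mem_XX] at hη
    rw [mem_coe, mem_BB, mul_inv_cancel_right]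
    exact ⟨hη, fun p hp => absurd hp (notMem_empty p)⟩
  · intro χ _
    simp only [inv_mul_cancel_right]
  · intro η _
    simp only [mul_inv_cancel_right]

lemma BB_card {d : ℕ} (hd : d ∣ q) (ψ : DirichletCharacter ℂ q) (hψ : ψ.IsPrimitive)
    (S : Finset ℕ) (hS : ∀ p ∈ S, p ∈ q.primeFactors ∧ ¬ d ∣ q / p) :
    d.totient ≤ 2 ^ S.card * (BB d ψ S).card := by
  classical
  have hq : q ≠ 0 := NeZero.ne q
  induction S using Finset.induction_on with
  | empty => rw [BB_empty hd, card_empty, pow_zero, one_mul]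
  | insert p S hpS ih =>
    have ih' := ih (fun p' hp' => hS p' (mem_insert_of_mem hp'))
    obtain ⟨hpf, hpd⟩ := hS p (mem_insert_self _ _)
    have hpp := Nat.prime_of_mem_primeFactors hpf
    have hpq := Nat.dvd_of_mem_primeFactors hpf
    obtain ⟨ζ, hζ1, hζ2⟩ := exists_zeta ψ hψ hpf
    have h1 : BB d ψ (insert p S) = (BB d ψ S).filter (fun χ => ¬ χ.conductor ∣ q / p) := by
      ext χ
      rw [mem_filter, mem_BB, mem_BB]
      constructor
      · rintro ⟨g1, g2⟩
        exact ⟨⟨g1, fun p' hp' => g2 p' (mem_insert_of_mem hp')⟩, g2 p (mem_insert_self _ _)⟩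
      · rintro ⟨⟨g1, g2⟩, g3⟩
        refine ⟨g1, fun p' hp' => ?_⟩
        rcases mem_insert.1 hp' with rfl | h
        · exact g3
        · exact g2 p' h
    have hpad : p ^ q.factorization p ∣ d := by
      rw [hpp.pow_dvd_iff_le_factorization (fun h => hq (Nat.eq_zero_of_zero_dvd (h ▸ hd)))]
      by_contra hlt
      push Not at hlt
      apply hpd
      have hd0 : d ≠ 0 := fun h => hq (Nat.eq_zero_of_zero_dvd (h ▸ hd))
      have hqp0 : q / p ≠ 0 :=
        (Nat.div_pos (Nat.le_of_dvd (Nat.pos_of_ne_zero hq) hpq) hpp.pos).ne'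
      rw [← Nat.factorization_le_iff_dvd hd0 hqp0, Nat.factorization_div hpq]
      intro r
      rw [Finsupp.tsub_apply, hpp.factorization, Finsupp.single_apply]
      have hle := (Nat.factorization_le_iff_dvd hd0 hq).2 hd r
      by_cases hr : p = r
      · subst hr
        rw [if_pos rfl]
        omega
      · rw [if_neg hr]
        simpa using hle
    have h2 : ((BB d ψ S).filter (fun χ => χ.conductor ∣ q / p)).card ≤
        ((BB d ψ S).filter (fun χ => ¬ χ.conductor ∣ q / p)).card := by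
      refine card_le_card_of_injOn (fun χ => ζ * χ) ?_ (fun a _ b _ h => mul_left_cancel h)
      intro χ hχ
      rw [mem_coe, mem_filter, mem_BB] at hχ
      obtain ⟨⟨g1, g2⟩, g3⟩ := hχ
      rw [mem_coe, mem_filter, mem_BB]
      refine ⟨⟨?_, ?_⟩, ?_⟩
      · rw [mul_assoc]
        exact (conductor_mul_dvd_lcm_conductor _ _).trans (Nat.lcm_dvd (hζ1.trans hpad) g1)
      · intro p' hp' h
        apply g2 p' hp'
        have e1 : χ = ζ⁻¹ * (ζ * χ) := by rw [inv_mul_cancel_left]
        rw [e1]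
        refine (conductor_mul_dvd_lcm_conductor _ _).trans (Nat.lcm_dvd ?_ h)
        rw [conductor_inv]
        refine hζ1.trans ?_
        have hp'f := (hS p' (mem_insert_of_mem hp')).1
        have hp'p := Nat.prime_of_mem_primeFactors hp'f
        have hne : p ≠ p' := fun h => hpS (h ▸ hp')
        have hc : Nat.Coprime (p ^ q.factorization p) p' :=
          Nat.Coprime.pow_left _ ((Nat.coprime_primes hpp hp'p).2 hne)
        rw [Nat.dvd_div_iff_mul_dvd (Nat.dvd_of_mem_primeFactors hp'f)]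
        exact hc.symm.mul_dvd_of_dvd_of_dvd (Nat.dvd_of_mem_primeFactors hp'f)
          (Nat.ordProj_dvd q p)
      · intro h
        apply hζ2
        have e1 : ζ = χ⁻¹ * (ζ * χ) := by rw [mul_comm ζ χ, inv_mul_cancel_left]
        rw [e1]
        refine (conductor_mul_dvd_lcm_conductor _ _).trans (Nat.lcm_dvd ?_ h)
        rw [conductor_inv]
        exact g3
    have h3 : ((BB d ψ S).filter (fun χ => χ.conductor ∣ q / p)).card +
        ((BB d ψ S).filter (fun χ => ¬ χ.conductor ∣ q / p)).card = (BB d ψ S).card :=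
      card_filter_add_card_filter_not _
    rw [h1, card_insert_of_notMem hpS, pow_succ]
    calc d.totient ≤ 2 ^ S.card * (BB d ψ S).card := ih'
      _ ≤ 2 ^ S.card * (2 * ((BB d ψ S).filter (fun χ => ¬ χ.conductor ∣ q / p)).card) :=
          Nat.mul_le_mul_left _ (by omega)
      _ = _ := by ring

/-- the number of primitive characters in a coset -/
theorem FF_card {d : ℕ} (hd : d ∣ q) (ψ : DirichletCharacter ℂ q) (hψ : ψ.IsPrimitive) :
    d ≤ q.divisors.card ^ 2 * (FF d ψ).card := by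
  classical
  have hq : q ≠ 0 := NeZero.ne q
  have hd0 : d ≠ 0 := fun h => hq (Nat.eq_zero_of_zero_dvd (h ▸ hd))
  obtain ⟨S, hS⟩ : ∃ S, S = q.primeFactors.filter (fun p => ¬ d ∣ q / p) := ⟨_, rfl⟩
  have h1 := BB_card hd ψ hψ S (fun p hp => by rw [hS, mem_filter] at hp; exact hp)
  have h2 : BB d ψ S ⊆ FF d ψ := by
    intro χ hχ
    rw [mem_BB] at hχ
    rw [mem_FF]
    refine ⟨?_, hχ.1⟩
    rw [isPrimitive_def]
    by_contra hne
    obtain ⟨k, hk⟩ := χ.conductor_dvd_level
    have hk1 : k ≠ 1 := by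
      rintro rfl
      rw [mul_one] at hk
      exact hne hk.symm
    obtain ⟨p, hp, hpk⟩ := Nat.exists_prime_and_dvd hk1
    have hpq : p ∣ q := by rw [hk]; exact hpk.mul_left _
    have hpf : p ∈ q.primeFactors := Nat.mem_primeFactors.2 ⟨hp, hpq, hq⟩
    have h3 : χ.conductor ∣ q / p := by
      rw [Nat.dvd_div_iff_mul_dvd hpq]
      conv_rhs => rw [hk, mul_comm]
      exact Nat.mul_dvd_mul_right hpk _
    by_cases h4 : d ∣ q / p
    · have h5 : ψ.conductor ∣ q / p := by
        have e1 : ψ = (χ * ψ⁻¹)⁻¹ * χ := by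
          rw [mul_inv, inv_inv, mul_comm χ⁻¹ ψ, inv_mul_cancel_right]
        rw [e1]
        refine (conductor_mul_dvd_lcm_conductor _ _).trans (Nat.lcm_dvd ?_ h3)
        rw [conductor_inv]
        exact hχ.1.trans h4
      rw [(isPrimitive_def ψ).1 hψ] at h5
      have h8 := Nat.le_of_dvd (Nat.div_pos (Nat.le_of_dvd (Nat.pos_of_ne_zero hq) hpq) hp.pos) h5
      have h9 := Nat.div_lt_self (Nat.pos_of_ne_zero hq) hp.one_lt
      omega
    · exact hχ.2 p (by rw [hS, mem_filter]; exact ⟨hpf, h4⟩) h3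
  have h3 : 2 ^ S.card ≤ q.divisors.card :=
    (Nat.pow_le_pow_right (by norm_num) (card_le_card (by rw [hS]; exact filter_subset _ _))).trans
      (two_pow_omega q hq)
  have h4 := phi_tau d hd0
  have h5 : d.divisors.card ≤ q.divisors.card := card_le_card (Nat.divisors_subset_of_dvd hq hd)
  calc d ≤ d.totient * d.divisors.card := h4
    _ ≤ (2 ^ S.card * (BB d ψ S).card) * d.divisors.card := Nat.mul_le_mul_right _ h1
    _ ≤ (q.divisors.card * (FF d ψ).card) * q.divisors.card := by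
        refine Nat.mul_le_mul (Nat.mul_le_mul h3 (card_le_card h2)) h5
    _ = _ := by ring

lemma FF_self {d : ℕ} {ψ : DirichletCharacter ℂ q} (hψ : ψ.IsPrimitive) : ψ ∈ FF d ψ := by
  rw [mem_FF, mul_inv_cancel, conductor_one]
  exact ⟨hψ, one_dvd _⟩

end Pool.Agent.D0H77.EM
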