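import Pool.Agent.D0H77.EM.Ms
import Pool.Agent.N880.HD.Core

/-! # From the mean square to the proportion, for a coset of characters -/

set_option autoImplicit false

open Complex Filter Topology MeasureTheory Set

namespace Pool.Agent.D0H77.EM

open H385 (bt wt Rw LF LF_eq Rw_nonneg)
open H370 (NN Nd Ns)
open Pool.Agent.N7.MainC (inner inner_continuous inner_nonneg inner_le)
open Pool.Agent.N880.QF (Y_int1)
open Pool.Agent.N880.HD (choose_s ms_parts)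

/-- the family inequality for a functional `G` of the zeros -/
def FamIneq (γ : ℝ) (G : (ℂ → ℂ) → ℝ → ℝ) : Prop := ∀ A : ℝ, 1 ≤ A →
    ∃ C : ℝ, 0 < C ∧ ∀ {ι : Type} (s : Finset ι) (ω : ι → ℝ) (Q : ι → ℝ) (F : ι → ℂ → ℂ)
      (a : ι → ℕ → ℂ) (T κ Λ Lm y1 y2 : ℝ) (Y : ℝ → ℝ),
      (∀ i ∈ s, 0 ≤ ω i ∧ 1 ≤ Q i ∧ H385.GoodU A (Q i) (F i) (a i) ∧ Real.log (Q i * T) ≤ Lm) →
      3 ≤ κ → 8 * κ ≤ T → T ≤ Real.exp (κ ^ 2 / 2) → 1 ≤ Λ → 1 ≤ Lm →
      Lm ^ 2 * Real.exp (Λ - κ ^ 2 / 2) ≤ Real.exp (-Λ) → 0 ≤ y1 → 0 ≤ y2 →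
      (∀ u ∈ Set.Icc 0 Λ,
        ∫ t : ℝ, ∑ i ∈ s, ω i *
          ‖∑' n : ℕ, a i n * ((Real.sqrt n : ℂ)⁻¹ * bt T u t (Real.log n))‖ ^ 2 ≤ Y u) →
      (∀ u ∈ Set.Icc 0 Λ, Y u ≤ T * (y1 * (u + 1) + y2)) →
      IntervalIntegrable Y volume 0 Λ →
      ∑ i ∈ s, ω i * G (F i) T ≤
        (∑ i ∈ s, ω i) * Lm ^ 2 * Rw γ 0 * T / (2 * Real.pi * Λ) +
        (2 / (Real.sqrt Real.pi * Λ)) * (∫ u in (0 : ℝ)..Λ, Rw γ (u / Λ) * Y u) +
        C * ((∑ i ∈ s, ω i) * (Lm ^ 2 * κ / Λ + Lm * T / Λ + κ * Lm) +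
          Real.sqrt (∑ i ∈ s, ω i) * Lm * T * (Real.sqrt y1 + Real.sqrt y2) / Λ)

/-- `(log (q T))² ≤ T` -/
lemma sq_log_qT : ∃ K0 : ℝ, 0 < K0 ∧ ∀ q T : ℝ, 1 ≤ q → 4 * (Real.log q) ^ 2 ≤ T →
    K0 ≤ q * T → 1 ≤ T ∧ (Real.log (q * T)) ^ 2 ≤ T := by
  have h1 : ∀ᶠ r : ℝ in atTop, ‖Real.log r‖ ≤ 1 / 4 * ‖id r‖ :=
    Real.isLittleO_log_id_atTop.bound (by norm_num)
  obtain ⟨r0, hr0⟩ := Filter.eventually_atTop.1 h1
  obtain ⟨r, hr⟩ : ∃ r, r = max r0 1 := ⟨_, rfl⟩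
  have hr1 : 1 ≤ r := by rw [hr]; exact le_max_right _ _
  have hrr0 : r0 ≤ r := by rw [hr]; exact le_max_left _ _
  refine ⟨Real.exp r * r ^ 2 + 1, by positivity, fun q T hq hT hK => ?_⟩
  have hq0 : 0 < q := by linarith
  have hT0 : 0 ≤ T := le_trans (by positivity) hT
  have hlq0 : 0 ≤ Real.log q := Real.log_nonneg hq
  have hlq : 2 * Real.log q ≤ Real.sqrt T := by
    apply Real.le_sqrt_of_sq_le
    linarith [show (2 * Real.log q) ^ 2 = 4 * (Real.log q) ^ 2 by ring]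
  have hrT : r ≤ Real.sqrt T := by
    by_contra hcon
    push Not at hcon
    have e1 : Real.log q ≤ r := by linarith
    have e2 : q ≤ Real.exp r := by
      rw [← Real.exp_log hq0]
      exact Real.exp_le_exp.2 e1
    have e3 : T ≤ r ^ 2 := by
      have := Real.sq_sqrt hT0
      have h5 := pow_le_pow_left₀ (Real.sqrt_nonneg T) hcon.le 2
      linarith
    have e4 : q * T ≤ Real.exp r * r ^ 2 := mul_le_mul e2 e3 hT0 (Real.exp_pos _).le
    linarith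
  have hTT : 1 ≤ T := by
    have := Real.sq_sqrt hT0
    nlinarith
  refine ⟨hTT, ?_⟩
  have h2 := hr0 (Real.sqrt T) (by linarith)
  have hs0 : 0 < Real.sqrt T := by linarith
  simp only [id, Real.norm_eq_abs] at h2
  rw [abs_of_pos hs0] at h2
  have h3 : Real.log T = 2 * Real.log (Real.sqrt T) := by
    rw [Real.log_sqrt hT0]; ring
  have h4 := le_abs_self (Real.log (Real.sqrt T))
  have hTpos : 0 < T := by linarith
  rw [Real.log_mul hq0.ne' hTpos.ne']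
  have h5 : 0 ≤ Real.log q + Real.log T := by
    have := Real.log_nonneg hTT
    linarith
  have h6 : Real.log q + Real.log T ≤ Real.sqrt T := by linarith
  calc (Real.log q + Real.log T) ^ 2 ≤ (Real.sqrt T) ^ 2 := pow_le_pow_left₀ h5 h6 2
    _ = T := Real.sq_sqrt hT0

set_option maxHeartbeats 4000000 in
theorem core_main (hms : S_msE) (h γ κ0 : ℝ) (hh0 : 0 < h) (hh1 : h ≤ 1) (h0 : 0 < γ)
    (hπ : γ < Real.pi)
    (hκ0 : Rw γ 0 / h + 2 * h * (∫ α in (0 : ℝ)..1, α * Rw γ α) < κ0)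
    (G : (ℂ → ℂ) → ℝ → ℝ) (hG : FamIneq γ G) :
    ∃ K : ℝ, ∀ (q : ℕ) [NeZero q] (d : ℕ) (_ : d ∣ q) (ψ : DirichletCharacter ℂ q)
      (_ : ψ.IsPrimitive) (T : ℝ), K ≤ q * T → 4 * (Real.log q) ^ 2 ≤ T → (q * T) ^ h ≤ d * T →
      ∑ χ ∈ FF d ψ, G (LF q χ) T ≤ κ0 * ∑ χ ∈ FF d ψ, (NN (LF q χ) T (2 * T) : ℝ) := by
  have hpi := Real.pi_pos
  have hpi3 := Real.pi_gt_three
  obtain ⟨A, hA, hgood⟩ := H385.good_dirichlet_U
  obtain ⟨C1, hC1, hfam⟩ := hG A hA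
  obtain ⟨C2, hC2, hlow⟩ := H385.N_lower A hA
  obtain ⟨Ci, hCi, hinner⟩ := inner_le 1 le_rfl
  obtain ⟨R, hRdef⟩ : ∃ R, R = Rw γ 0 := ⟨_, rfl⟩
  obtain ⟨J, hJdef⟩ : ∃ J, J = ∫ α in (0:ℝ)..1, α * Rw γ α := ⟨_, rfl⟩
  rw [← hRdef, ← hJdef] at hκ0
  have hR : 0 ≤ R := hRdef ▸ Rw_nonneg γ h0 hπ 0
  have hJ : 0 ≤ J := by
    rw [hJdef]
    apply intervalIntegral.integral_nonneg zero_le_one
    intro α hα
    exact mul_nonneg hα.1 (Rw_nonneg γ h0 hπ α)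
  obtain ⟨s, hs, hs1, hsκ⟩ := choose_s hh0 hκ0
  obtain ⟨LY, hLY, hYint⟩ := Y_int1 γ h0 hπ hs
  obtain ⟨β, hβdef⟩ : ∃ β, β = (1 - s) * h := ⟨_, rfl⟩
  obtain ⟨c', hc'def⟩ : ∃ c', c' = 2 * β * (1 + s) * (J + s) := ⟨_, rfl⟩
  rw [← hβdef, ← hc'def] at hsκ
  have hβ : 0 < β := by rw [hβdef]; exact mul_pos (by linarith) hh0
  have hc' : 0 ≤ c' := by rw [hc'def]; positivity
  obtain ⟨ε1, hε1, hε1a, hε1b⟩ : ∃ ε1 : ℝ, 0 < ε1 ∧ ε1 ≤ s / 8 ∧
      6 * Real.pi * C1 * ε1 / β ≤ s / 8 := by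
    refine ⟨min (s / 8) (s / 8 * β / (6 * Real.pi * C1)), ?_, min_le_left _ _, ?_⟩
    · exact lt_min (by positivity) (by positivity)
    · have : 6 * Real.pi * C1 * min (s / 8) (s / 8 * β / (6 * Real.pi * C1)) ≤
          6 * Real.pi * C1 * (s / 8 * β / (6 * Real.pi * C1)) := by
        gcongr; exact min_le_right _ _
      rw [div_le_iff₀ hβ]
      refine this.trans (le_of_eq ?_)
      field_simp
  obtain ⟨η, hη, hη1, hη2⟩ : ∃ η : ℝ, 0 < η ∧ η ≤ 1 ∧ 8 * η * (R / β) ≤ s / 8 := by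
    have h2 : 0 ≤ R / β := by positivity
    refine ⟨min 1 (s / 64 / (R / β + 1)), lt_min (by positivity) (by positivity),
      min_le_left _ _, ?_⟩
    have h1 : min 1 (s / 64 / (R / β + 1)) ≤ s / 64 / (R / β + 1) := min_le_right _ _
    have h3 : s / 64 / (R / β + 1) * (R / β) ≤ s / 64 := by
      rw [div_mul_eq_mul_div, div_le_iff₀ (by positivity)]
      exact mul_le_mul_of_nonneg_left (by linarith) (by positivity)
    have h4 : min 1 (s / 64 / (R / β + 1)) * (R / β) ≤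
        s / 64 / (R / β + 1) * (R / β) := mul_le_mul_of_nonneg_right h1 h2
    linarith
  obtain ⟨KM, CM, hCM, hKM, hmsb⟩ := hms h s hh0 hh1 hs hs1
  obtain ⟨K0, hK0, hsq⟩ := sq_log_qT
  obtain ⟨L0, q2, q3, q4, q5, q6, q7, q8⟩ : ∃ L0 : ℝ,
      4 * β + 8 ≤ L0 ∧ 1 / β ≤ L0 ∧ LY / β ≤ L0 ∧
      C1 * (12 / β + 3) * (2 * Real.pi) ≤ s / 8 * L0 ∧
      10 * Real.pi * C2 * (R / β + c' + s) ≤ s / 2 * L0 ∧
      4 * Real.pi * CM * R / ε1 ≤ L0 ∧
      (Real.sqrt Ci + Real.sqrt CM) / ε1 ≤ L0 := by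
    have a2 : 0 ≤ 4 * β + 8 := by positivity
    have a3 : 0 ≤ 1 / β := by positivity
    have a4 : 0 ≤ LY / β := by positivity
    have a5 : 0 ≤ C1 * (12 / β + 3) * (2 * Real.pi) * (8 / s) := by positivity
    have a6 : 0 ≤ 10 * Real.pi * C2 * (R / β + c' + s) * (2 / s) := by positivity
    have a7 : 0 ≤ 4 * Real.pi * CM * R / ε1 := by positivity
    have a8 : 0 ≤ (Real.sqrt Ci + Real.sqrt CM) / ε1 := by positivity
    refine ⟨(4 * β + 8) + 1 / β + LY / β +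
      C1 * (12 / β + 3) * (2 * Real.pi) * (8 / s) +
      10 * Real.pi * C2 * (R / β + c' + s) * (2 / s) +
      4 * Real.pi * CM * R / ε1 +
      (Real.sqrt Ci + Real.sqrt CM) / ε1,
      by linarith, by linarith, by linarith, ?_, ?_, by linarith, by linarith⟩
    · have e1 : C1 * (12 / β + 3) * (2 * Real.pi) =
          s / 8 * (C1 * (12 / β + 3) * (2 * Real.pi) * (8 / s)) := by field_simp
      rw [e1]
      refine mul_le_mul_of_nonneg_left ?_ (by positivity)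
      rw [← e1]
      linarith
    · have e1 : 10 * Real.pi * C2 * (R / β + c' + s) =
          s / 2 * (10 * Real.pi * C2 * (R / β + c' + s) * (2 / s)) := by field_simp
      rw [e1]
      refine mul_le_mul_of_nonneg_left ?_ (by positivity)
      rw [← e1]
      linarith
  refine ⟨max (max KM K0) (Real.exp L0), ?_⟩
  intro q _ d hd ψ hψ T hK hT1 hhT
  have hKM' : KM ≤ q * T := ((le_max_left _ _).trans (le_max_left _ _)).trans hK
  have hK0' : K0 ≤ q * T := ((le_max_right _ _).trans (le_max_left _ _)).trans hK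
  have hKe : Real.exp L0 ≤ q * T := (le_max_right _ _).trans hK
  have hq1 : (1 : ℝ) ≤ q := by exact_mod_cast Nat.one_le_iff_ne_zero.2 (NeZero.ne q)
  have hqpos : (0 : ℝ) < q := by linarith
  obtain ⟨hTT, hTL0⟩ := hsq q T hq1 hT1 hK0'
  have hTpos : 0 < T := by linarith
  have hqT : 0 < (q : ℝ) * T := by positivity
  obtain ⟨L, hL⟩ : ∃ L, L = Real.log (q * T) := ⟨_, rfl⟩
  have hLL0 : L0 ≤ L := by rw [hL, Real.le_log_iff_exp_le hqT]; exact hKe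
  have hTL : L ^ 2 ≤ T := by rw [hL]; exact hTL0
  have hL8 : 8 ≤ L := by linarith
  have hL0 : 0 < L := by linarith
  have hT2' : T ≤ Real.exp (1 * L) := by
    rw [one_mul, hL, Real.exp_log hqT]
    exact le_mul_of_one_le_left hTpos.le hq1
  obtain ⟨p1, p2, p3, p4, p5, p6⟩ := H385.param_ok β L T 1 hβ le_rfl (q2.trans hLL0)
    (q3.trans hLL0) hTL hT2'
  have hYη : Real.log (q * T) ≤ (1 + 2 * η) * L := by
    rw [← hL]
    have h3 : 0 ≤ η * L := by positivity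
    linarith
  have hprim : ∀ χ ∈ FF d ψ, χ.IsPrimitive := fun χ hχ => (mem_FF.1 hχ).1
  have hdata : ∀ χ ∈ FF d ψ, 0 ≤ (1 : ℝ) ∧ (1 : ℝ) ≤ (q : ℝ) ∧
      H385.GoodU A (q : ℝ) (LF q χ)
        (fun n => χ (n : ZMod q) * (ArithmeticFunction.vonMangoldt n : ℂ)) ∧
      Real.log ((q : ℝ) * T) ≤ (1 + 2 * η) * L := by
    intro χ hχ
    refine ⟨zero_le_one, hq1, ?_, hYη⟩
    rw [LF_eq]
    exact hgood q χ (hprim χ hχ)
  have hLm : (1 + 2 * η) * L ≤ 3 * L := mul_le_mul_of_nonneg_right (by linarith) (by linarith)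
  have hLm1 : 1 ≤ (1 + 2 * η) * L :=
    le_trans (by linarith : 1 ≤ L) (le_mul_of_one_le_left (by linarith) (by linarith))
  have hLm0 : 0 ≤ (1 + 2 * η) * L := by linarith
  have hLm2 : ((1 + 2 * η) * L) ^ 2 ≤ 9 * L ^ 2 := by
    have h0 : ((1 + 2 * η) * L) ^ 2 ≤ (3 * L) ^ 2 := pow_le_pow_left₀ hLm0 hLm 2
    linarith [show (3 * L) ^ 2 = 9 * L ^ 2 by ring]
  obtain ⟨W, hWd⟩ : ∃ W : ℝ, W = ((FF d ψ).card : ℝ) := ⟨_, rfl⟩
  have hW0 : 0 ≤ W := by rw [hWd]; exact Nat.cast_nonneg _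
  have hW : ∑ _χ ∈ FF d ψ, (1 : ℝ) = W := by
    rw [hWd, Finset.sum_const, nsmul_eq_mul, mul_one]
  obtain ⟨Yf, hYf⟩ : ∃ Yf : ℝ → ℝ, Yf = fun u => (1 + s) * W * (T / (2 * Real.pi)) *
      inner 1 u + (CM * W) * (T + 0 * (u + 1)) := ⟨_, rfl⟩
  have hms' : ∀ u ∈ Set.Icc 0 (β * L),
        ∫ t : ℝ, ∑ χ ∈ FF d ψ, (1 : ℝ) *
          ‖∑' n : ℕ, (χ (n : ZMod q) * (ArithmeticFunction.vonMangoldt n : ℂ)) *
            ((Real.sqrt n : ℂ)⁻¹ * bt T u t (Real.log n))‖ ^ 2 ≤ Yf u := by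
    intro u hu
    have h1 := hmsb q d hd ψ hψ T u hKM' hTT (by rw [← hL]; exact hTL) hhT hu.1
      (by rw [← hL, ← hβdef]; exact hu.2)
    rw [hYf]
    refine h1.trans (le_of_eq ?_)
    rw [hWd]; ring
  have hbd : ∀ u ∈ Set.Icc 0 (β * L), Yf u ≤ T * ((W * Ci) * (u + 1) + W * CM) := by
    intro u hu
    rw [hYf]
    have hu0 : 0 ≤ u := hu.1
    have h1 := hinner u hu0
    have h2 : (1 + s) * W * (T / (2 * Real.pi)) * inner 1 u ≤ (W * T) * (Ci * (u + 1)) := by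
      have e1 : (1 + s) * W * (T / (2 * Real.pi)) = (W * T) * ((1 + s) / (2 * Real.pi)) := by
        field_simp
      rw [e1]
      have e2 : (1 + s) / (2 * Real.pi) ≤ 1 := by
        rw [div_le_one (by positivity)]; linarith
      have e3 : (W * T) * ((1 + s) / (2 * Real.pi)) ≤ W * T :=
        mul_le_of_le_one_right (by positivity) e2
      exact mul_le_mul e3 h1 (inner_nonneg 1 u) (by positivity)
    have h5 : T * ((W * Ci) * (u + 1) + W * CM) =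
      (W * T) * (Ci * (u + 1)) + (CM * W) * (T + 0 * (u + 1)) := by ring
    rw [h5]
    exact add_le_add h2 le_rfl
  have hYi : IntervalIntegrable Yf volume 0 (β * L) := by
    have hc2 : Continuous (inner 1) := inner_continuous one_pos
    rw [hYf]
    exact Continuous.intervalIntegrable (by fun_prop) _ _
  have hy1 : 0 ≤ W * Ci := by positivity
  have hy2 : 0 ≤ W * CM := by positivity
  have hexp : ((1 + 2 * η) * L) ^ 2 * Real.exp (β * L - L ^ 2 / 2) ≤ Real.exp (-(β * L)) :=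
    le_trans (mul_le_mul_of_nonneg_right hLm2 (Real.exp_pos _).le) p5
  have k1 := hfam (FF d ψ) (fun _ => (1 : ℝ)) (fun _ => (q : ℝ))
    (fun χ => LF q χ) (fun χ n => χ (n : ZMod q) * (ArithmeticFunction.vonMangoldt n : ℂ))
    T L (β * L) ((1 + 2 * η) * L) (W * Ci) (W * CM) Yf hdata p1 p2 p3 p4 hLm1 hexp hy1 hy2
    hms' hbd hYi
  -- lower bound for the number of zeros
  have hN : W * (T / (2 * Real.pi) * L - 5 * C2 * T) ≤
      ∑ χ ∈ FF d ψ, (NN (LF q χ) T (2 * T) : ℝ) := by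
    have : W * (T / (2 * Real.pi) * L - 5 * C2 * T) =
        ∑ _χ ∈ FF d ψ, (T / (2 * Real.pi) * L - 5 * C2 * T) := by
      rw [Finset.sum_const, nsmul_eq_mul, hWd]
    rw [this]
    refine Finset.sum_le_sum (fun χ hχ => ?_)
    have hl := hlow q (LF q χ) _ hq1 (by rw [LF_eq]; exact hgood q χ (hprim χ hχ)) T L p1 p2
    rw [← hL] at hl
    refine le_trans ?_ hl
    have a2 : L * L ≤ 3 * T := by
      linarith [show L * L = L ^ 2 by ring]
    have a3 : T * L ^ 2 * Real.exp (-L ^ 2 / 2) ≤ T := by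
      have b2 : L ^ 2 * Real.exp (-L ^ 2 / 2) ≤ 1 := by
        refine le_trans (mul_le_mul_of_nonneg_right ?_ (Real.exp_pos _).le) p6
        have : 0 ≤ L ^ 2 := by positivity
        linarith
      calc _ = T * (L ^ 2 * Real.exp (-L ^ 2 / 2)) := by ring
        _ ≤ T * 1 := mul_le_mul_of_nonneg_left b2 hTpos.le
        _ = T := mul_one T
    have a4 : C2 * (T + L * L + T * L ^ 2 * Real.exp (-L ^ 2 / 2)) ≤
        C2 * (5 * T) := mul_le_mul_of_nonneg_left (by linarith) hC2.le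
    linarith
  obtain ⟨SN, hSN⟩ : ∃ SN, SN = ∑ χ ∈ FF d ψ, (NN (LF q χ) T (2 * T) : ℝ) := ⟨_, rfl⟩
  have hSN0 : 0 ≤ SN := hSN ▸ Finset.sum_nonneg (fun _ _ => Nat.cast_nonneg _)
  rw [← hSN] at hN ⊢
  have hs8L : s / 8 * L0 ≤ s / 8 * L := mul_le_mul_of_nonneg_left hLL0 (by positivity)
  have hs2L : s / 2 * L0 ≤ s / 2 * L := mul_le_mul_of_nonneg_left hLL0 (by positivity)
  have hJ1 : (2 / (Real.sqrt Real.pi * (β * L))) * (∫ u in (0 : ℝ)..(β * L),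
      Rw γ (u / (β * L)) * Yf u) ≤ T / (2 * Real.pi) * L * W * (c' + ε1) := by
    have h1 := hYint (β * L) ((1 + s) * W * (T / (2 * Real.pi))) (CM * W) T 0
      (by have := q4.trans hLL0; rw [div_le_iff₀ hβ] at this; linarith) (by positivity)
      (by positivity) hTpos.le le_rfl
    rw [← hJdef, ← hRdef] at h1
    have h2 := ms_parts (CM := CM) (R := R) (J := J) (W := W) hs (by linarith : 1 ≤ L) hTT hβ hW0 hJ
      hR hCM (q7.trans hLL0) hε1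
    rw [hc'def]
    refine le_trans (mul_le_mul_of_nonneg_left ?_ (by positivity)) h2
    rw [hYf]
    exact h1
  have hs12 : Real.sqrt (W * Ci) + Real.sqrt (W * CM) ≤ ε1 * L * Real.sqrt W := by
    rw [Real.sqrt_mul hW0, Real.sqrt_mul hW0, ← mul_add]
    have h1 := q8.trans hLL0
    rw [div_le_iff₀ hε1] at h1
    calc Real.sqrt W * (Real.sqrt Ci + Real.sqrt CM) ≤ Real.sqrt W * (L * ε1) :=
          mul_le_mul_of_nonneg_left h1 (Real.sqrt_nonneg _)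
      _ = _ := by ring
  simp only [one_mul] at k1
  rw [hW, ← hRdef] at k1
  have h1 : ∑ χ ∈ FF d ψ, G (LF q χ) T ≤ (R / β + c' + s) * SN := by
    refine H385.numeric_core β c' s R C1 C2 η ε1 L T W _ _ _ _ hβ hc' hs hR hC1
      hC2 hη hη1 hε1 hL8 hTL hW0 hη2 hε1a (q5.trans hs8L) hε1b (q6.trans hs2L) hJ1 hs12 k1 hN
  exact h1.trans (mul_le_mul_of_nonneg_right hsκ.le hSN0)

end Pool.Agent.D0H77.EM
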