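import Mathlib

/-! Primitive characters in a coset: orthogonality relations. -/

set_option autoImplicit false

open Finset DirichletCharacter

namespace Pool.Agent.D0H77.EM

variable {q : ℕ} [NeZero q]

/-- the characters modulo `q` whose conductor divides `e` -/
noncomputable def XX (q : ℕ) (e : ℕ) : Finset (DirichletCharacter ℂ q) := by
  classical exact univ.filter (fun χ => χ.conductor ∣ e)

omit [NeZero q] in
lemma mem_XX {e : ℕ} {χ : DirichletCharacter ℂ q} : χ ∈ XX q e ↔ χ.conductor ∣ e := by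
  classical
  unfold XX
  simp

lemma XX_eq_image {e : ℕ} (he : e ∣ q) :
    (XX q e : Set (DirichletCharacter ℂ q)) = Set.range (changeLevel (R := ℂ) he) := by
  ext χ
  rw [mem_coe, mem_XX, ← mem_conductorSet_iff_conductor_dvd χ he, mem_conductorSet_iff]
  constructor
  · rintro ⟨h, χ₀, rfl⟩
    exact ⟨χ₀, rfl⟩
  · rintro ⟨χ₀, rfl⟩
    exact changeLevel_factorsThrough χ₀ he

lemma XX_sum_gen {e : ℕ} (he : e ∣ q) (f : DirichletCharacter ℂ q → ℂ) :
    ∑ χ ∈ XX q e, f χ = ∑ η : DirichletCharacter ℂ e, f (changeLevel he η) := by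
  classical
  have h : XX q e = univ.image (changeLevel (R := ℂ) he) := by
    apply Finset.coe_injective
    rw [XX_eq_image he]
    simp
  rw [h, sum_image]
  intro a _ b _ hab
  exact changeLevel_injective he hab

lemma XX_sum {e : ℕ} (he : e ∣ q) (a : (ZMod q)ˣ) :
    ∑ χ ∈ XX q e, χ a =
      if (ZMod.castHom he (ZMod e) (a : ZMod q)) = 1 then (e.totient : ℂ) else 0 := by
  have : NeZero e := ⟨fun h => NeZero.ne q (Nat.eq_zero_of_zero_dvd (h ▸ he))⟩
  rw [XX_sum_gen he (fun χ => χ a)]
  rw [← DirichletCharacter.sum_characters_eq ℂ (ZMod.castHom he (ZMod e) (a : ZMod q))]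
  refine sum_congr rfl fun η _ => ?_
  rw [changeLevel_eq_cast_of_dvd]
  rfl

lemma XX_card {e : ℕ} (he : e ∣ q) : (XX q e).card = e.totient := by
  have h := XX_sum he (1 : (ZMod q)ˣ)
  simp only [Units.val_one, map_one, if_true, sum_const, nsmul_eq_mul, mul_one] at h
  exact_mod_cast h

/-- the primitive characters `χ` modulo `q` for which `χ ψ⁻¹` has a conductor dividing `d` -/
noncomputable def FF (d : ℕ) (ψ : DirichletCharacter ℂ q) : Finset (DirichletCharacter ℂ q) := by
  classical exact univ.filter (fun χ => χ.IsPrimitive ∧ (χ * ψ⁻¹).conductor ∣ d)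

omit [NeZero q] in
lemma mem_FF {d : ℕ} {ψ χ : DirichletCharacter ℂ q} :
    χ ∈ FF d ψ ↔ χ.IsPrimitive ∧ (χ * ψ⁻¹).conductor ∣ d := by
  classical
  unfold FF
  simp

open Classical in
/-- Möbius inversion for primitive characters -/
lemma prim_moebius (χ : DirichletCharacter ℂ q) :
    ∑ P ∈ q.divisors, (ArithmeticFunction.moebius P : ℤ) * (if χ.conductor ∣ q / P then 1 else 0) =
      if χ.IsPrimitive then 1 else 0 := by
  have hq : q ≠ 0 := NeZero.ne q
  obtain ⟨k, hk⟩ := χ.conductor_dvd_level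
  have hc0 : χ.conductor ≠ 0 := conductor_ne_zero χ
  have hk0 : k ≠ 0 := by
    rintro rfl
    exact hq (by rw [hk, mul_zero])
  have h1 : ∀ P ∈ q.divisors, (χ.conductor ∣ q / P ↔ P ∣ k) := by
    intro P hP
    have hPq := Nat.dvd_of_mem_divisors hP
    rw [Nat.dvd_div_iff_mul_dvd hPq]
    constructor
    · intro h
      have h2 : χ.conductor * P ∣ χ.conductor * k := by
        rw [mul_comm χ.conductor P, ← hk]; exact h
      exact Nat.dvd_of_mul_dvd_mul_left (Nat.pos_of_ne_zero hc0) h2
    · intro h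
      have h2 : χ.conductor * P ∣ χ.conductor * k := Nat.mul_dvd_mul_left _ h
      rw [mul_comm χ.conductor P, ← hk] at h2
      exact h2
  have h2 : ∑ P ∈ q.divisors, (ArithmeticFunction.moebius P : ℤ) *
      (if χ.conductor ∣ q / P then 1 else 0) = ∑ P ∈ k.divisors, ArithmeticFunction.moebius P := by
    have h3 : k.divisors = q.divisors.filter (fun P => P ∣ k) := by
      ext P
      simp only [Nat.mem_divisors, mem_filter]
      constructor
      · rintro ⟨h4, h5⟩
        exact ⟨⟨h4.trans ⟨χ.conductor, by rw [mul_comm]; exact hk⟩, hq⟩, h4⟩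
      · rintro ⟨_, h4⟩
        exact ⟨h4, hk0⟩
    rw [h3, sum_filter]
    refine sum_congr rfl fun P hP => ?_
    by_cases h : P ∣ k
    · rw [if_pos h, if_pos ((h1 P hP).2 h), mul_one]
    · rw [if_neg h, if_neg (fun h' => h ((h1 P hP).1 h')), mul_zero]
  rw [h2]
  have h4 := congrFun (congrArg DFunLike.coe ArithmeticFunction.moebius_mul_coe_zeta) k
  rw [ArithmeticFunction.coe_mul_zeta_apply] at h4
  rw [h4, ArithmeticFunction.one_apply]
  have h5 : k = 1 ↔ χ.IsPrimitive := by
    rw [isPrimitive_def]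
    constructor
    · rintro rfl
      rw [mul_one] at hk
      exact hk.symm
    · intro h
      rw [h] at hk
      have : q * k = q * 1 := by rw [← hk, mul_one]
      exact Nat.eq_of_mul_eq_mul_left (Nat.pos_of_ne_zero hq) this
  by_cases h : k = 1
  · rw [if_pos h, if_pos (h5.1 h)]
  · rw [if_neg h, if_neg (fun h' => h (h5.2 h'))]

/-- the kernel of the family -/
lemma kernel_bound {d : ℕ} (hd : d ∣ q) (ψ : DirichletCharacter ℂ q) (a : (ZMod q)ˣ) :
    ‖∑ χ ∈ FF d ψ, χ a‖ ≤ ∑ P ∈ q.divisors,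
      (if ZMod.castHom ((Nat.gcd_dvd_left d (q / P)).trans hd) (ZMod (d.gcd (q / P)))
        (a : ZMod q) = 1 then ((d.gcd (q / P)).totient : ℝ) else 0) := by
  classical
  have h1 : ∑ χ ∈ FF d ψ, χ a = ∑ P ∈ q.divisors, ((ArithmeticFunction.moebius P : ℤ) : ℂ) *
      ∑ χ ∈ univ.filter (fun χ : DirichletCharacter ℂ q =>
        (χ * ψ⁻¹).conductor ∣ d ∧ χ.conductor ∣ q / P), χ a := by
    have h2 : ∀ P ∈ q.divisors, ((ArithmeticFunction.moebius P : ℤ) : ℂ) *
      ∑ χ ∈ univ.filter (fun χ : DirichletCharacter ℂ q =>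
        (χ * ψ⁻¹).conductor ∣ d ∧ χ.conductor ∣ q / P), χ a =
        ∑ χ ∈ univ.filter (fun χ : DirichletCharacter ℂ q => (χ * ψ⁻¹).conductor ∣ d),
          (((ArithmeticFunction.moebius P : ℤ) * (if χ.conductor ∣ q / P then 1 else 0) : ℤ) : ℂ) *
            χ a := by
      intro P _
      rw [← filter_filter, sum_filter, mul_sum]
      refine sum_congr rfl fun χ _ => ?_
      by_cases h : χ.conductor ∣ q / P
      · rw [if_pos h, if_pos h, mul_one]
      · rw [if_neg h, if_neg h, mul_zero]; simp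
    rw [sum_congr rfl h2, sum_comm]
    have h3 : FF d ψ = (univ.filter (fun χ : DirichletCharacter ℂ q =>
        (χ * ψ⁻¹).conductor ∣ d)).filter (fun χ => χ.IsPrimitive) := by
      ext χ
      rw [mem_FF]
      simp only [mem_filter, mem_univ, true_and]
      tauto
    rw [h3, sum_filter]
    refine sum_congr rfl fun χ _ => ?_
    rw [← sum_mul, ← Int.cast_sum, prim_moebius χ]
    by_cases h : χ.IsPrimitive
    · rw [if_pos h, if_pos h]; simp
    · rw [if_neg h, if_neg h]; simp
  rw [h1]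
  refine (norm_sum_le _ _).trans (sum_le_sum fun P hP => ?_)
  rw [norm_mul]
  have hmu : ‖((ArithmeticFunction.moebius P : ℤ) : ℂ)‖ ≤ 1 := by
    have := ArithmeticFunction.abs_moebius_le_one (n := P)
    rw [Complex.norm_intCast]
    exact_mod_cast this
  have hPq : q / P ∣ q := Nat.div_dvd_of_dvd (Nat.dvd_of_mem_divisors hP)
  obtain ⟨e, he⟩ : ∃ e, e = d.gcd (q / P) := ⟨_, rfl⟩
  have hed : e ∣ d := by rw [he]; exact Nat.gcd_dvd_left _ _
  have heP : e ∣ q / P := by rw [he]; exact Nat.gcd_dvd_right _ _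
  have heq : e ∣ q := hed.trans hd
  have hgoal : ‖∑ χ ∈ univ.filter (fun χ : DirichletCharacter ℂ q =>
        (χ * ψ⁻¹).conductor ∣ d ∧ χ.conductor ∣ q / P), χ a‖ ≤
      (if ZMod.castHom heq (ZMod e) (a : ZMod q) = 1 then (e.totient : ℝ) else 0) := by
    by_cases hne : (univ.filter (fun χ : DirichletCharacter ℂ q =>
        (χ * ψ⁻¹).conductor ∣ d ∧ χ.conductor ∣ q / P)).Nonempty
    · obtain ⟨χ1, hχ1⟩ := hne
      simp only [mem_filter, mem_univ, true_and] at hχ1
      have h4 : univ.filter (fun χ : DirichletCharacter ℂ q =>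
        (χ * ψ⁻¹).conductor ∣ d ∧ χ.conductor ∣ q / P) = (XX q e).image (fun η => χ1 * η) := by
        ext χ
        simp only [mem_filter, mem_univ, true_and, mem_image, mem_XX]
        constructor
        · rintro ⟨g1, g2⟩
          refine ⟨χ1⁻¹ * χ, ?_, by rw [mul_inv_cancel_left]⟩
          rw [he]
          apply Nat.dvd_gcd
          · have e1 : χ1⁻¹ * χ = (χ1 * ψ⁻¹)⁻¹ * (χ * ψ⁻¹) := by
              rw [mul_inv, inv_inv]
              calc χ1⁻¹ * χ = χ1⁻¹ * χ * (ψ * ψ⁻¹) := by rw [mul_inv_cancel, mul_one]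
                _ = _ := by rw [mul_mul_mul_comm]
            rw [e1]
            refine (conductor_mul_dvd_lcm_conductor _ _).trans (Nat.lcm_dvd ?_ g1)
            rw [conductor_inv]
            exact hχ1.1
          · refine (conductor_mul_dvd_lcm_conductor _ _).trans (Nat.lcm_dvd ?_ g2)
            rw [conductor_inv]
            exact hχ1.2
        · rintro ⟨η, g1, rfl⟩
          constructor
          · have e1 : χ1 * η * ψ⁻¹ = η * (χ1 * ψ⁻¹) := by rw [mul_comm χ1 η, mul_assoc]
            rw [e1]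
            exact (conductor_mul_dvd_lcm_conductor _ _).trans
              (Nat.lcm_dvd (g1.trans hed) hχ1.1)
          · exact (conductor_mul_dvd_lcm_conductor _ _).trans
              (Nat.lcm_dvd hχ1.2 (g1.trans heP))
      rw [h4, sum_image (fun a _ b _ h => mul_left_cancel h)]
      have h5 : ∑ η ∈ XX q e, (χ1 * η) a = χ1 a * ∑ η ∈ XX q e, η a := by
        rw [mul_sum]
        rfl
      rw [h5, norm_mul, XX_sum heq]
      have h6 : ‖χ1 a‖ ≤ 1 := DirichletCharacter.norm_le_one _ _
      split_ifs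
      · rw [Complex.norm_natCast]
        exact mul_le_of_le_one_left (Nat.cast_nonneg _) h6
      · simp
    · rw [not_nonempty_iff_eq_empty] at hne
      rw [hne, sum_empty, norm_zero]
      split_ifs
      · exact Nat.cast_nonneg _
      · exact le_rfl
  subst he
  calc _ ≤ 1 * _ := mul_le_mul_of_nonneg_right hmu (norm_nonneg _)
    _ ≤ _ := by rw [one_mul]; exact hgoal

end Pool.Agent.D0H77.EM
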