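import Pool.Agent.N880.HD.Ms
import Pool.Agent.D0H77.EM.Block
import Pool.Agent.D0H77.EM.Card
import Pool.Agent.H353R2.Z2

/-! # The mean square over a coset of primitive characters of one modulus -/

set_option autoImplicit false

open Complex Filter Topology MeasureTheory Set

namespace Pool.Agent.D0H77.EM

open H385 (bt wt Rw bt_norm wt_nonneg wt_le_one bt_sq_int wt_sq_int bt_cont)
open Pool.Agent.N880.QF (PP mem_PP yy yy_sq yy_abs card_PP sq_add_le)
open Pool.Agent.N880.HD (block_int main_sum_integrable thr num_ms S_gauss S_winC)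

/-- the block estimate for the main primes in a short logarithmic block -/
theorem block_est {q : ℕ} [NeZero q] {d : ℕ} (hd : d ∣ q) (ψ : DirichletCharacter ℂ q)
    {B : ℕ} {δ : ℝ} (e L u ρ : ℝ) (hρ : 0 < ρ) (hρ1 : ρ ≤ 1)
    (hlen : q.divisors.card * (12 * ρ * Real.exp (u + e * L)) ≤ δ * (FF d ψ).card)
    (v : ℝ) (x : ℕ → ℂ) (hx : ∀ p : ℕ, ρ < |Real.log p - v| → x p = 0) :
    ∑ χ ∈ FF d ψ, (1 : ℝ) * ‖∑ p ∈ PP B e L u, χ (p : ZMod q) * x p‖ ^ 2 ≤
      ((1 + δ) * (FF d ψ).card) * ∑ p ∈ PP B e L u, ‖x p‖ ^ 2 := by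
  classical
  obtain ⟨S, hS⟩ : ∃ S : Finset ℕ, S = (PP B e L u).filter
      (fun p : ℕ => |Real.log (p : ℝ) - v| ≤ ρ) := ⟨_, rfl⟩
  have hsub : S ⊆ PP B e L u := by rw [hS]; exact Finset.filter_subset _ _
  have h0 : ∀ p ∈ PP B e L u, p ∉ S → x p = 0 := by
    intro p hp hpS
    apply hx
    by_contra hcon
    apply hpS
    rw [hS, Finset.mem_filter]
    exact ⟨hp, not_lt.1 hcon⟩
  have hs1 : ∀ χ : DirichletCharacter ℂ q, ∑ p ∈ PP B e L u, χ (p : ZMod q) * x p =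
      ∑ p ∈ S, χ (p : ZMod q) * x p := by
    intro χ
    symm
    refine Finset.sum_subset hsub fun p hp hpS => ?_
    rw [h0 p hp hpS, mul_zero]
  have hs2 : ∑ p ∈ PP B e L u, ‖x p‖ ^ 2 = ∑ p ∈ S, ‖x p‖ ^ 2 := by
    symm
    refine Finset.sum_subset hsub fun p hp hpS => ?_
    rw [h0 p hp hpS]
    simp
  simp only [one_mul, hs1]
  rw [hs2]
  rcases S.eq_empty_or_nonempty with hSe | ⟨p0, hp0⟩
  · rw [hSe]
    simp
  · have hp0' := hp0
    rw [hS, Finset.mem_filter] at hp0'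
    obtain ⟨hp0P, hpv⟩ := hp0'
    obtain ⟨g1, g2, g3⟩ := mem_PP hp0P
    have hv : v ≤ u + e * L + ρ := by
      have h1 := (abs_le.1 hpv).1
      have h2 := (abs_le.1 g3).2
      linarith
    obtain ⟨M, H, h1, h2, h3⟩ := block_int (v := v) hρ hρ1
    have hR0 : 0 ≤ 12 * ρ * Real.exp (u + e * L) := by positivity
    have hHR : (H : ℝ) ≤ 12 * ρ * Real.exp (u + e * L) + 1 := by
      refine h3.trans ?_
      have e1 : Real.exp v ≤ 3 * Real.exp (u + e * L) := by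
        calc Real.exp v ≤ Real.exp (u + e * L + 1) := Real.exp_le_exp.2 (by linarith)
          _ = Real.exp (u + e * L) * Real.exp 1 := Real.exp_add _ _
          _ ≤ Real.exp (u + e * L) * 3 :=
            mul_le_mul_of_nonneg_left (by linarith [Real.exp_one_lt_d9]) (Real.exp_pos _).le
          _ = _ := by ring
      have := mul_le_mul_of_nonneg_left e1 (show 0 ≤ 4 * ρ by positivity)
      linarith
    have hSI : S ⊆ Finset.Ioc M (M + H) := by
      intro n hn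
      rw [hS, Finset.mem_filter] at hn
      obtain ⟨k3, k4, k5⟩ := mem_PP hn.1
      have hn0 : (0 : ℝ) < n := by exact_mod_cast k3.pos
      have k6 := abs_le.1 hn.2
      have k7 : Real.exp (v - ρ) ≤ n := by
        rw [← Real.le_log_iff_exp_le hn0]; linarith [k6.1]
      have k8 : (n : ℝ) ≤ Real.exp (v + ρ) := by
        rw [← Real.log_le_iff_le_exp hn0]; linarith [k6.2]
      rw [Finset.mem_Ioc]
      refine ⟨?_, h2 n k8⟩
      by_contra hcon
      have := h1 n (by omega)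
      linarith
    refine (block_ms hd ψ hR0 hHR S hSI x).trans ?_
    refine mul_le_mul_of_nonneg_right ?_ (Finset.sum_nonneg fun _ _ => by positivity)
    linarith

/-- the mean square over the family; `L = log (q T)` -/
def S_msE : Prop := ∀ (h s : ℝ), 0 < h → h ≤ 1 → 0 < s → s ≤ 1 / 2 → ∃ K C : ℝ, 0 < C ∧ 3 ≤ K ∧
  ∀ (q : ℕ) [NeZero q] (d : ℕ) (_ : d ∣ q) (ψ : DirichletCharacter ℂ q) (_ : ψ.IsPrimitive)
    (T u : ℝ), K ≤ q * T → 1 ≤ T → (Real.log (q * T)) ^ 2 ≤ T → (q * T) ^ h ≤ d * T → 0 ≤ u →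
    u ≤ (1 - s) * h * Real.log (q * T) →
    ∫ t : ℝ, ∑ χ ∈ FF d ψ, (1 : ℝ) * ‖∑' n : ℕ, (χ (n : ZMod q) *
        (ArithmeticFunction.vonMangoldt n : ℂ)) *
        ((Real.sqrt n : ℂ)⁻¹ * bt T u t (Real.log n))‖ ^ 2 ≤
      (1 + s) * (FF d ψ).card * (T / (2 * Real.pi)) * Pool.Agent.N7.MainC.inner 1 u +
        C * (FF d ψ).card * T

theorem ms_main (hgauss : S_gauss) (hwin : S_winC)
    (hrest : Pool.Agent.N880.QF.S_rest) : S_msE := by
  intro h s hh0 hh1 hs hs1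
  obtain ⟨δ, hδ⟩ : ∃ δ, δ = s / 20 := ⟨_, rfl⟩
  have hδ0 : 0 < δ := by rw [hδ]; positivity
  have hδ1 : δ ≤ 1 := by rw [hδ]; linarith
  obtain ⟨Cg, hCg, hg⟩ := hgauss δ hδ0
  obtain ⟨C2, κ0, d0, hC2, hκ0, hd0, hw⟩ := hwin δ hδ0
  obtain ⟨CR, hCR, hr⟩ := hrest 0 (s * h / 4) (by positivity)
  obtain ⟨C3, hC3, hwt⟩ := wt_sq_int
  obtain ⟨C5, hC5, hcr⟩ := H385.lam_sq_crude
  obtain ⟨Cd, hCd, hdiv⟩ := H353.divisor_bound_real (s * h / 16) (by positivity)
  obtain ⟨L1, hL1⟩ := thr (s := 3 / 4 * (s * h)) (e0 := 2 * δ / Cd ^ 3) (κ0 := κ0) (d0 := d0)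
    (by positivity) (by positivity) hCg hδ0
  refine ⟨max 3 (Real.exp L1), 12 * C2 * C5 + 2 * C2 * (4 * Real.exp 144) +
    (1 + 1 / δ) * CR ^ 2 * (1 + C3), by positivity, le_max_left _ _, ?_⟩
  intro q _ d hd ψ hψ T u hK hT1 hTL hhT hu0 hu
  have hq0 : q ≠ 0 := NeZero.ne q
  have hq1 : (1 : ℝ) ≤ q := by exact_mod_cast Nat.one_le_iff_ne_zero.2 hq0
  have hqpos : (0 : ℝ) < q := by linarith
  have hT0 : 0 < T := by linarith
  have hqT : 0 < (q : ℝ) * T := by positivity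
  obtain ⟨L, hL⟩ : ∃ L, L = Real.log (q * T) := ⟨_, rfl⟩
  rw [← hL] at hTL hu
  have hLL1 : L1 ≤ L := by
    rw [hL, Real.le_log_iff_exp_le hqT]
    exact (le_max_right _ _).trans hK
  obtain ⟨t1, t2, t3, t4, t5⟩ := hL1 L hLL1
  have hL0 : 0 < L := by linarith
  have hexpL : Real.exp L = q * T := by rw [hL, Real.exp_log hqT]
  have hsh : 0 < s * h := by positivity
  have hsh1 : s * h ≤ 1 / 2 := by nlinarith
  have hu2 : u ≤ h * L - s * h * L := by
    have e1 : (1 - s) * h * L = h * L - s * h * L := by ring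
    linarith
  have hhL1 : h * L ≤ L := mul_le_of_le_one_left hL0.le hh1
  have hshL : 0 ≤ s * h * L := by positivity
  have huL : u ≤ L := by linarith
  have hu2L : u ≤ 2 * L := by linarith
  have hexp1 : u + s * h / 4 * L ≤ h * L + -(3 / 4 * (s * h) * L) := by linarith
  have hexp2 : u + s * h / 4 * L ≤ 3 * L := by
    have : 0 ≤ 3 / 4 * (s * h) * L := by positivity
    linarith
  obtain ⟨P, hP⟩ : ∃ P, P = PP 0 (s * h / 4) L u := ⟨_, rfl⟩
  have hcard : (P.card : ℝ) ≤ Real.exp (3 * L) := by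
    rw [hP]
    refine card_PP (Real.one_le_exp (by positivity)) ?_
    rw [Real.log_exp]; exact hexp2
  -- parameters
  obtain ⟨κ, hκ⟩ : ∃ κ, κ = T / L := ⟨_, rfl⟩
  obtain ⟨ρ, hρ⟩ : ∃ ρ, ρ = L ^ 2 / T := ⟨_, rfl⟩
  have hκL : L ≤ κ := by
    rw [hκ, le_div_iff₀ hL0]; nlinarith
  have hκ1 : 0 < κ := by linarith
  have hκd : κ ≤ d0 * T := by
    rw [hκ, div_le_iff₀ hL0]
    have : 1 ≤ d0 * L := by
      rw [div_le_iff₀ hd0] at t4; linarith
    nlinarith
  have hρ0 : 0 < ρ := by rw [hρ]; positivity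
  have hρ1 : ρ ≤ 1 := by rw [hρ, div_le_one hT0]; exact hTL
  have hκρ : κ * ρ = L := by rw [hκ, hρ]; field_simp
  obtain ⟨W, hWd⟩ : ∃ W : ℝ, W = ((FF d ψ).card : ℝ) := ⟨_, rfl⟩
  have hW0 : 0 ≤ W := by rw [hWd]; exact Nat.cast_nonneg _
  -- the length of the blocks
  have hlen : q.divisors.card * (12 * ρ * Real.exp (u + s * h / 4 * L)) ≤ δ * (FF d ψ).card := by
    obtain ⟨τ, hτ⟩ : ∃ τ : ℝ, τ = (q.divisors.card : ℝ) := ⟨_, rfl⟩
    rw [← hτ, ← hWd]
    have hτ0 : 0 ≤ τ := by rw [hτ]; exact Nat.cast_nonneg _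
    have hdW : (d : ℝ) ≤ τ ^ 2 * W := by
      rw [hτ, hWd]
      exact_mod_cast FF_card hd ψ hψ
    have hτC : τ ≤ Cd * Real.exp (s * h / 16 * L) := by
      rw [hτ]
      refine (hdiv q hq0).trans ?_
      refine mul_le_mul_of_nonneg_left ?_ hCd.le
      rw [Real.rpow_def_of_pos hqpos]
      apply Real.exp_le_exp.2
      have e1 : Real.log q ≤ L := by
        rw [hL]
        apply Real.log_le_log hqpos
        exact le_mul_of_one_le_right hqpos.le hT1
      have e2 : 0 ≤ s * h / 16 := by positivity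
      calc Real.log q * (s * h / 16) ≤ L * (s * h / 16) := mul_le_mul_of_nonneg_right e1 e2
        _ = _ := by ring
    have hτ3 : τ ^ 3 ≤ Cd ^ 3 * Real.exp (3 / 16 * (s * h) * L) := by
      have e1 := pow_le_pow_left₀ hτ0 hτC 3
      refine e1.trans (le_of_eq ?_)
      rw [mul_pow, ← Real.exp_nat_mul]
      congr 2
      push_cast
      ring
    have e1 : Real.exp (u + s * h / 4 * L) ≤ (d * T) * Real.exp (-(3 / 4 * (s * h) * L)) := by
      refine (Real.exp_le_exp.2 hexp1).trans ?_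
      rw [Real.exp_add]
      refine mul_le_mul_of_nonneg_right ?_ (Real.exp_pos _).le
      refine le_trans (le_of_eq ?_) hhT
      rw [Real.rpow_def_of_pos hqT, ← hL, mul_comm]
    have hE : 0 < Real.exp (-(3 / 4 * (s * h) * L)) := Real.exp_pos _
    calc τ * (12 * ρ * Real.exp (u + s * h / 4 * L))
        ≤ τ * (12 * ρ * ((d * T) * Real.exp (-(3 / 4 * (s * h) * L)))) := by gcongr
      _ = τ * (12 * L ^ 2 * d * Real.exp (-(3 / 4 * (s * h) * L))) := by
          rw [hρ]; field_simp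
      _ ≤ τ * (12 * L ^ 2 * (τ ^ 2 * W) * Real.exp (-(3 / 4 * (s * h) * L))) := by gcongr
      _ = τ ^ 3 * (12 * L ^ 2 * Real.exp (-(3 / 4 * (s * h) * L)) * W) := by ring
      _ ≤ (Cd ^ 3 * Real.exp (3 / 16 * (s * h) * L)) *
            (12 * L ^ 2 * Real.exp (-(3 / 4 * (s * h) * L)) * W) := by gcongr
      _ = Cd ^ 3 * (12 * L ^ 2 * (Real.exp (3 / 16 * (s * h) * L) *
            Real.exp (-(3 / 4 * (s * h) * L)))) * W := by ring
      _ = Cd ^ 3 * (12 * L ^ 2 * Real.exp (-(3 / 4 * (3 / 4 * (s * h)) * L))) * W := by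
          rw [← Real.exp_add]
          congr 5
          ring
      _ ≤ Cd ^ 3 * (2 * δ / Cd ^ 3 / 2) * W := by gcongr
      _ = δ * W := by field_simp
  have hWs : ∑ _i ∈ FF d ψ, (1 : ℝ) = W := by
    rw [hWd, Finset.sum_const, nsmul_eq_mul, mul_one]
  have hω : ∀ i ∈ FF d ψ, 0 ≤ (fun _ : DirichletCharacter ℂ q => (1 : ℝ)) i :=
    fun i _ => zero_le_one
  have hz : ∀ (i : DirichletCharacter ℂ q) (p : ℕ),
      ‖(fun (i : DirichletCharacter ℂ q) (p : ℕ) => i (p : ZMod q)) i p‖ ≤ 1 :=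
    fun i p => DirichletCharacter.norm_le_one _ _
  -- kernel estimate
  have hker := hg (DirichletCharacter ℂ q) ℕ (FF d ψ) (fun _ => 1)
    (fun i p => i (p : ZMod q)) P (fun p => Real.log p) ((1 + δ) * W) κ ρ hω hz hκ1 hρ0
    (by positivity) (fun v x hx => by
      rw [hP, hWd]
      exact block_est hd ψ (s * h / 4) L u ρ hρ0 hρ1 hlen v x hx)
  rw [hWs, hκρ] at hker
  obtain ⟨A, hA⟩ : ∃ A, A = (1 + δ) * ((1 + δ) * W) + δ * W := ⟨_, rfl⟩
  have hA0 : 0 ≤ A := by rw [hA]; positivity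
  have hker2 : ∀ x : ℕ → ℂ, ∑ i ∈ FF d ψ, (1 : ℝ) *
      (∑ p ∈ P, ∑ r ∈ P, (i (p : ZMod q) * x p) *
        (starRingEnd ℂ) (i (r : ZMod q) * x r) *
        ((Real.exp (-(κ ^ 2 * (Real.log p - Real.log r) ^ 2 / 4)) : ℝ) : ℂ)).re ≤
      A * ∑ p ∈ P, ‖x p‖ ^ 2 := by
    intro x
    refine (hker x).trans ?_
    refine mul_le_mul_of_nonneg_right ?_ (Finset.sum_nonneg fun _ _ => by positivity)
    rw [hA]
    have e1 : Cg * W * P.card * Real.exp (-L ^ 2 / 2) ≤ δ * W := by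
      calc _ ≤ Cg * W * Real.exp (3 * L) * Real.exp (-L ^ 2 / 2) := by gcongr
        _ = (Cg * (Real.exp (3 * L) * Real.exp (-L ^ 2 / 2))) * W := by ring
        _ ≤ _ := mul_le_mul_of_nonneg_right t2 hW0
    linarith
  -- window lemma
  have hwin1 := hw (DirichletCharacter ℂ q) ℕ (FF d ψ) (fun _ => 1)
    (fun i p => i (p : ZMod q)) P (fun p => Real.log p) (fun p => ((yy p : ℝ) : ℂ)) A κ T u
    hω hz (fun p _ => Real.log_natCast_nonneg p) (t3.trans hκL) hκd hA0 hker2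
  -- the pointwise bound
  obtain ⟨M, hM⟩ : ∃ M : DirichletCharacter ℂ q → ℝ → ℂ, M = fun i t => ∑ p ∈ P,
    i (p : ZMod q) * ((yy p : ℝ) : ℂ) * bt T u t (Real.log p) := ⟨_, rfl⟩
  have hpt : ∀ t : ℝ, ∑ χ ∈ FF d ψ, (1 : ℝ) * ‖∑' n : ℕ, (χ (n : ZMod q) *
        (ArithmeticFunction.vonMangoldt n : ℂ)) *
          ((Real.sqrt n : ℂ)⁻¹ * bt T u t (Real.log n))‖ ^ 2 ≤
      (1 + δ) * ∑ i ∈ FF d ψ, (1 : ℝ) * ‖M i t‖ ^ 2 +
        (1 + 1 / δ) * (CR ^ 2 * W) * wt T t ^ 2 := by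
    intro t
    have hwn := wt_nonneg T t hT0.le
    have hk : ∀ i ∈ FF d ψ, (1 : ℝ) * ‖∑' n : ℕ, (i (n : ZMod q) *
        (ArithmeticFunction.vonMangoldt n : ℂ)) *
          ((Real.sqrt n : ℂ)⁻¹ * bt T u t (Real.log n))‖ ^ 2 ≤
        1 * ((1 + δ) * ‖M i t‖ ^ 2 + (1 + 1 / δ) * (CR * wt T t) ^ 2) := by
      intro i hi
      refine mul_le_mul_of_nonneg_left ?_ zero_le_one
      have h1 := hr L u T t (fun n => i (n : ZMod q) *
        (ArithmeticFunction.vonMangoldt n : ℂ)) t5 hu0 huL hT0.le (fun n => by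
          rw [norm_mul, Complex.norm_real, Real.norm_eq_abs,
            abs_of_nonneg ArithmeticFunction.vonMangoldt_nonneg]
          exact mul_le_of_le_one_left ArithmeticFunction.vonMangoldt_nonneg
            (DirichletCharacter.norm_le_one _ _))
      have h2 : ∑ p ∈ PP 0 (s * h / 4) L u, (i (p : ZMod q) *
          (ArithmeticFunction.vonMangoldt p : ℂ)) *
          ((Real.sqrt p : ℂ)⁻¹ * bt T u t (Real.log p)) = M i t := by
        rw [hM, ← hP]
        refine Finset.sum_congr rfl fun p hp => ?_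
        unfold yy
        push_cast
        rw [div_eq_mul_inv]
        ring
      rw [h2] at h1
      have h3 := norm_le_norm_add_norm_sub' (∑' n : ℕ, (i (n : ZMod q) *
        (ArithmeticFunction.vonMangoldt n : ℂ)) * ((Real.sqrt n : ℂ)⁻¹ * bt T u t (Real.log n)))
        (M i t)
      exact (pow_le_pow_left₀ (norm_nonneg _) (h3.trans (add_le_add le_rfl h1)) 2).trans
        (sq_add_le hδ0 _ _)
    refine (Finset.sum_le_sum hk).trans (le_of_eq ?_)
    rw [Finset.mul_sum, ← hWs, Finset.mul_sum, Finset.mul_sum, Finset.sum_mul,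
      ← Finset.sum_add_distrib]
    refine Finset.sum_congr rfl fun i _ => ?_
    ring
  -- integrability
  have hTκ : T ≤ Real.exp (L ^ 2) := by
    have e1 : T ≤ Real.exp L := by
      rw [hexpL]; exact le_mul_of_one_le_left hT0.le hq1
    refine e1.trans (Real.exp_le_exp.2 ?_)
    nlinarith
  have hMi : ∀ i : DirichletCharacter ℂ q, Integrable (fun t => ‖M i t‖ ^ 2) := by
    intro i
    rw [hM]
    exact main_sum_integrable P (fun p => i (p : ZMod q) * ((yy p : ℝ) : ℂ))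
      (fun p => Real.log p) t5 hT1 hTκ
  have hi1 : Integrable (fun t => ∑ i ∈ FF d ψ, (1 : ℝ) * ‖M i t‖ ^ 2) :=
    integrable_finsetSum _ fun i _ => (hMi i).const_mul _
  have hi2 : Integrable (fun t => wt T t ^ 2) := (hwt T hT0.le).1
  have hint : Integrable (fun t => (1 + δ) * ∑ i ∈ FF d ψ, (1 : ℝ) * ‖M i t‖ ^ 2 +
      (1 + 1 / δ) * (CR ^ 2 * W) * wt T t ^ 2) := (hi1.const_mul _).add (hi2.const_mul _)
  refine (integral_mono_of_nonneg (Eventually.of_forall fun t =>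
    Finset.sum_nonneg fun χ _ => by positivity) hint
    (Eventually.of_forall hpt)).trans ?_
  rw [integral_add (hi1.const_mul _) (hi2.const_mul _), integral_const_mul, integral_const_mul]
  have s1 : ∑ p ∈ P, ‖((yy p : ℝ) : ℂ)‖ ^ 2 * Real.exp (-(u - Real.log p) ^ 2) ≤
      Pool.Agent.N7.MainC.inner 1 u := by
    have h1 := (Pool.Agent.N7.MainC.inner_summable (c := 1) one_pos u).sum_le_tsum P
      (fun n _ => by positivity)
    unfold Pool.Agent.N7.MainC.inner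
    rw [one_pow, one_mul]
    refine le_trans (le_of_eq (Finset.sum_congr rfl fun p _ => ?_)) h1
    rw [Complex.norm_real, Real.norm_eq_abs, sq_abs, yy_sq, one_mul]
  have s2 : ∑ p ∈ P, ‖((yy p : ℝ) : ℂ)‖ ^ 2 * Real.exp (-(u - Real.log p) ^ 2 / 2) ≤
      C5 * (u + 1) := by
    obtain ⟨h1, h2⟩ := hcr u hu0
    refine le_trans ?_ h2
    refine le_trans (le_of_eq (Finset.sum_congr rfl fun p _ => ?_)) (h1.sum_le_tsum P
      (fun n _ => by positivity))
    rw [Complex.norm_real, Real.norm_eq_abs, sq_abs, yy_sq]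
  have s3 : Real.exp (-κ ^ 2 / 16) * (∑ p ∈ P, ‖((yy p : ℝ) : ℂ)‖) ^ 2 ≤ 4 * Real.exp 144 := by
    have h1 : ∑ p ∈ P, ‖((yy p : ℝ) : ℂ)‖ ≤ 2 * Real.exp (3 * L) := by
      have h2 : ∑ p ∈ P, ‖((yy p : ℝ) : ℂ)‖ ≤ ∑ _p ∈ P, (2 : ℝ) :=
        Finset.sum_le_sum fun p _ => by
          rw [Complex.norm_real, Real.norm_eq_abs]; exact yy_abs p
      rw [Finset.sum_const, nsmul_eq_mul] at h2
      linarith
    have h4 : (∑ p ∈ P, ‖((yy p : ℝ) : ℂ)‖) ^ 2 ≤ (2 * Real.exp (3 * L)) ^ 2 :=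
      pow_le_pow_left₀ (Finset.sum_nonneg fun p _ => norm_nonneg _) h1 2
    have h5 : Real.exp (-κ ^ 2 / 16) ≤ Real.exp (-L ^ 2 / 16) := by
      apply Real.exp_le_exp.2
      have : L ^ 2 ≤ κ ^ 2 := pow_le_pow_left₀ hL0.le hκL 2
      linarith
    calc _ ≤ Real.exp (-L ^ 2 / 16) * (2 * Real.exp (3 * L)) ^ 2 :=
          mul_le_mul h5 h4 (by positivity) (Real.exp_pos _).le
      _ = 4 * Real.exp (-L ^ 2 / 16 + (3 * L + 3 * L)) := by
          rw [Real.exp_add, Real.exp_add]; ring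
      _ ≤ _ := by
          refine mul_le_mul_of_nonneg_left (Real.exp_le_exp.2 ?_) (by norm_num)
          nlinarith [sq_nonneg (L - 48)]
  have hwtI := (hwt T hT0.le).2
  have hTp : 0 ≤ T / (2 * Real.pi) := by positivity
  have hI1n := Pool.Agent.N7.MainC.inner_nonneg 1 u
  have hwin2 : ∫ t : ℝ, ∑ i ∈ FF d ψ, (1 : ℝ) * ‖M i t‖ ^ 2 ≤
      (1 + δ) * A * (T / (2 * Real.pi)) * Pool.Agent.N7.MainC.inner 1 u +
      C2 * A * κ * (C5 * (u + 1)) + C2 * W * T * (4 * Real.exp 144) := by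
    rw [hM]
    refine hwin1.trans ?_
    have b1 := mul_le_mul_of_nonneg_left s1 (show 0 ≤ (1 + δ) * A * (T / (2 * Real.pi)) by positivity)
    have b2 := mul_le_mul_of_nonneg_left s2 (show 0 ≤ C2 * A * κ by positivity)
    have b3 := mul_le_mul_of_nonneg_left s3 (show 0 ≤ C2 * W * T by positivity)
    rw [hWs]
    have b4 : C2 * W * T * Real.exp (-κ ^ 2 / 16) * (∑ p ∈ P, ‖((yy p : ℝ) : ℂ)‖) ^ 2 =
      C2 * W * T * (Real.exp (-κ ^ 2 / 16) * (∑ p ∈ P, ‖((yy p : ℝ) : ℂ)‖) ^ 2) := by ring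
    rw [b4]
    linarith
  have hfin := num_ms (δ := δ) (s := s) (Tp := T / (2 * Real.pi))
    (I1 := Pool.Agent.N7.MainC.inner 1 u) (C2 := C2) (C5 := C5) (Cw := 4 * Real.exp 144) (L := L)
    (u := u) (T := T) (W := W) (CR := CR) (C3 := C3) (κ := κ)
    hδ0 hδ hs1 hTp hI1n hC2 hC5 t5 hu0 hu2L hκ hT1 hW0 (by positivity) hCR hC3
  rw [← hA] at hfin
  rw [← hWd]
  refine le_trans ?_ hfin
  refine add_le_add (mul_le_mul_of_nonneg_left hwin2 (by linarith)) ?_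
  exact mul_le_mul_of_nonneg_left hwtI (by positivity)

end Pool.Agent.D0H77.EM
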