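import Pool.Agent.H385R2.FamAbs
import Pool.Agent.H385R2.PerChi
import Pool.Agent.Y762.TraceD

/-!
The basic inequality for one L-function, with a parameter `j`
(after `Pool.Agent.H385R2.PerChi` and `Pool.Agent.Y771.DJ.Tr`).
-/

set_option autoImplicit false

open Complex Filter Topology Set MeasureTheory
open scoped BigOperators ComplexConjugate
open H370 (zset mult NN Nd Ns GoodL)

namespace Pool.Agent.D0H77.EM

open H385 H385.PerChi

/-- the contribution of one zero -/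
noncomputable def tj (j : ℕ) (F : ℂ → ℂ) (T : ℝ) (s : ℂ) : ℝ :=
  if s.re = 1 / 2 then
    (if mult F s ≤ j + 1 then ((mult F s : ℝ) * (cc T (zz s)).re) ^ 2
      else 2 * ((j : ℝ) + 1) * ((mult F s : ℝ) * (cc T (zz s)).re) - ((j : ℝ) + 1) ^ 2)
  else 2 * ((j : ℝ) + 1) * ((mult F s : ℝ) * (cc T (zz s)).re) - ((j : ℝ) + 1) ^ 2 / 2

theorem trace_part_j (j : ℕ) (γ : ℝ) (h0 : 0 < γ) (hπ : γ < Real.pi) {F : ℂ → ℂ} (hF : GoodL F)
    (T Λ V1 V2 : ℝ) (hΛ : 0 < Λ) (hT : 0 ≤ T) (hV : 1 ≤ V1) (hfin : (zset F V1 V2).Finite) :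
    ∑ s ∈ hfin.toFinset, tj j F T s ≤
      (2 / (Real.sqrt Real.pi * Λ)) * (∫ u in (0 : ℝ)..Λ, Rw γ (u / Λ) *
          ∫ t : ℝ, ‖BB F V1 V2 T u t‖ ^ 2) := by
  classical
  set Zf := hfin.toFinset with hZf
  have hmem : ∀ {s}, s ∈ Zf ↔ s ∈ zset F V1 V2 := by
    intro s; rw [hZf, Set.Finite.mem_toFinset]
  set Z := Zf.image zz with hZdef
  have hinj : Set.InjOn zz (Zf : Set ℂ) := fun s _ s' _ h => zz_inj h
  have hZ : ∀ z ∈ Z, (starRingEnd ℂ) z ∈ Z := by
    intro z hz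
    obtain ⟨s, hs, rfl⟩ := Finset.mem_image.mp hz
    rw [← zz_refl]
    exact Finset.mem_image_of_mem _ (hmem.2 (zset_refl hF hV (hmem.1 hs)))
  have hac : ∀ z ∈ Z, aw F T ((starRingEnd ℂ) z) = (starRingEnd ℂ) (aw F T z) := by
    intro z hz
    obtain ⟨s, hs, rfl⟩ := Finset.mem_image.mp hz
    obtain ⟨h1, h2, h3, h4, h5⟩ := hmem.1 hs
    rw [← zz_refl, aw_zz, aw_zz, map_mul, Complex.conj_natCast, cc_conj, zz_refl,
      mult_refl hF h1 h2 (by linarith)]
  obtain ⟨E, i1, i2, kv, hkv⟩ := gram_w γ h0 hπ Λ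
  obtain ⟨k, hk⟩ : ∃ k : ℝ, k = (j : ℝ) + 1 := ⟨_, rfl⟩
  have hk0 : 0 < k := by rw [hk]; positivity
  obtain ⟨lam, hlam⟩ : ∃ lam : ℝ, lam = 2 / k := ⟨_, rfl⟩
  have hlam0 : 0 < lam := by rw [hlam]; positivity
  have hlk : lam * k = 2 := by rw [hlam]; field_simp
  have hl2 : k ^ 2 / 4 * lam ^ 2 = 1 := by
    have : (lam * k) ^ 2 = 4 := by rw [hlk]; norm_num
    nlinarith
  set m : ℂ → ℕ := fun z => mult F (1 / 2 + I * z) with hm
  set a : ℂ → ℂ := fun z => (lam : ℂ) * aw F T z with ha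
  have hare : ∀ z, (a z).re = lam * (aw F T z).re := by
    intro z
    simp only [ha]
    rw [Complex.re_ofReal_mul]
  have hawre : ∀ z, (aw F T z).re = (m z : ℝ) * (cc T z).re := by
    intro z
    unfold aw
    rw [← Complex.ofReal_natCast, Complex.re_ofReal_mul]
  have hreal : ∀ z : ℂ, z.im = 0 → 0 ≤ (cc T z).re ∧ (cc T z).re ≤ 1 := by
    intro z hz
    have hzr : z = ((z.re : ℝ) : ℂ) := by
      apply Complex.ext
      · simp
      · simp [hz]
    rw [hzr]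
    exact (cc_real T z.re hT).2
  set d : ℂ → ℝ := fun z => if z.im = 0 ∧ m z ≤ j + 1 then lam * (aw F T z).re else 2 with hd
  have hTr := Pool.Agent.Y762.trace_d (phiw γ Λ) kv hkv (phiw_even γ Λ) (phiw_zero γ h0 hπ Λ) Z hZ a
    (fun z hz => by
      simp only [ha]
      rw [hac z hz, map_mul, Complex.conj_ofReal]) d
    (fun z _ => by
      simp only [hd]
      split_ifs with h
      · obtain ⟨c1, c2⟩ := hreal z h.1
        have h1 : (m z : ℝ) ≤ k := by
          rw [hk]; exact_mod_cast h.2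
        have h2 : (m z : ℝ) * (cc T z).re ≤ k * 1 :=
          mul_le_mul h1 c2 c1 hk0.le
        rw [hawre]
        calc lam * ((m z : ℝ) * (cc T z).re) ≤ lam * (k * 1) :=
              mul_le_mul_of_nonneg_left h2 hlam0.le
          _ = 2 := by rw [mul_one, hlk]
      · exact le_refl _)
    (fun z _ hz => by
      have hz' : z.im = 0 ∧ m z ≤ j + 1 := by
        by_contra h
        apply hz
        simp only [hd]
        rw [if_neg h]
      refine ⟨hz'.1, ?_⟩
      rw [hare, hawre]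
      have := (hreal z hz'.1).1
      positivity)
  have hQ : (∑ z ∈ Z, ∑ w ∈ Z, a z * a w * (phiw γ Λ (z - w)) ^ 2).re =
      lam ^ 2 * (∑ z ∈ Z, ∑ w ∈ Z, aw F T z * aw F T w * (phiw γ Λ (z - w)) ^ 2).re := by
    have e1 : ∑ z ∈ Z, ∑ w ∈ Z, a z * a w * (phiw γ Λ (z - w)) ^ 2 =
        ((lam ^ 2 : ℝ) : ℂ) *
          ∑ z ∈ Z, ∑ w ∈ Z, aw F T z * aw F T w * (phiw γ Λ (z - w)) ^ 2 := by
      rw [Finset.mul_sum]
      refine Finset.sum_congr rfl fun z _ => ?_
      rw [Finset.mul_sum]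
      refine Finset.sum_congr rfl fun w _ => ?_
      simp only [ha]
      push_cast
      ring
    rw [e1, Complex.re_ofReal_mul]
  rw [hQ, quad_form γ Λ hΛ (kapw_sq γ h0 hπ) (Rw_cont γ h0 hπ) (Rw_even γ) Z hZ (aw F T) hac] at hTr
  have hBB : ∀ u t : ℝ, ∑ z ∈ Z, aw F T z * (cexp (I * u * z) * cexp (-(z - t) ^ 2 / 2)) =
      BB F V1 V2 T u t := by
    intro u t
    unfold BB
    rw [finsum_mem_eq_finite_toFinset_sum _ hfin, hZdef, Finset.sum_image hinj]
    refine Finset.sum_congr rfl fun s _ => ?_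
    rw [aw_zz]
  simp_rw [hBB] at hTr
  have hscale := mul_le_mul_of_nonneg_left hTr (by positivity : 0 ≤ k ^ 2 / 4)
  rw [← mul_assoc (k ^ 2 / 4), hl2, one_mul] at hscale
  refine le_trans (le_of_eq ?_) hscale
  rw [Finset.mul_sum, hZdef, Finset.sum_image hinj]
  refine Finset.sum_congr rfl fun s _ => ?_
  have him0 : (zz s).im = 0 ↔ s.re = 1 / 2 := by
    rw [H385.PerChi.zz_im]; constructor <;> intro h <;> linarith
  have hms : m (zz s) = mult F s := by simp only [hm]; rw [zz_spec]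
  rw [hare]
  simp only [hd]
  rw [hawre, hms]
  unfold tj
  rw [← hk]
  by_cases h1 : s.re = 1 / 2
  · by_cases h2 : mult F s ≤ j + 1
    · rw [if_pos h1, if_pos h2, if_pos (him0.2 h1), if_pos ⟨him0.2 h1, h2⟩]
      have : k ^ 2 / 4 * (2 * (lam * ((mult F s : ℝ) * (cc T (zz s)).re)) *
          (lam * ((mult F s : ℝ) * (cc T (zz s)).re)) -
          (lam * ((mult F s : ℝ) * (cc T (zz s)).re)) ^ 2) =
          (k ^ 2 / 4 * lam ^ 2) * ((mult F s : ℝ) * (cc T (zz s)).re) ^ 2 := by ring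
      rw [this, hl2, one_mul]
    · rw [if_pos h1, if_neg h2, if_pos (him0.2 h1), if_neg (fun h => h2 h.2)]
      have : k ^ 2 / 4 * (2 * 2 * (lam * ((mult F s : ℝ) * (cc T (zz s)).re)) - 2 ^ 2) =
          (lam * k) * k * ((mult F s : ℝ) * (cc T (zz s)).re) - k ^ 2 := by ring
      rw [this, hlk]
  · rw [if_neg h1, if_neg (fun h => h1 (him0.1 h))]
    have : k ^ 2 / 4 * (4 * (lam * ((mult F s : ℝ) * (cc T (zz s)).re)) - 2) =
        (lam * k) * k * ((mult F s : ℝ) * (cc T (zz s)).re) - k ^ 2 / 2 := by ring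
    rw [this, hlk]

/-- excess multiplicity beyond `j + 1` on the line, beyond `1` off the line -/
noncomputable def EX (j : ℕ) (F : ℂ → ℂ) (T1 T2 : ℝ) : ℕ :=
  ∑ᶠ s ∈ zset F T1 T2, (if s.re = 1 / 2 then mult F s - (j + 1) else mult F s - 1)

/-- the distinct zeros off the line -/
noncomputable def NF (F : ℂ → ℂ) (T1 T2 : ℝ) : ℕ := {s : ℂ | s ∈ zset F T1 T2 ∧ s.re ≠ 1 / 2}.ncard

/-- the functional -/
noncomputable def GJ (j : ℕ) (F : ℂ → ℂ) (T : ℝ) : ℝ :=
  (2 * j + 1) * (NN F T (2 * T) : ℝ) - j * (j + 1) * (Nd F T (2 * T) : ℝ) +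
    (EX j F T (2 * T) : ℝ) + ((j : ℝ) ^ 2 + 1) / 2 * (NF F T (2 * T) : ℝ)

/-- the weight of one zero -/
noncomputable def wj (j : ℕ) (F : ℂ → ℂ) (s : ℂ) : ℝ :=
  (2 * j + 1) * (mult F s : ℝ) - j * (j + 1) +
    ((if s.re = 1 / 2 then mult F s - (j + 1) else mult F s - 1 : ℕ) : ℝ) +
    ((j : ℝ) ^ 2 + 1) / 2 * (if s.re = 1 / 2 then 0 else 1)

lemma GJ_eq (j : ℕ) {F : ℂ → ℂ} {T : ℝ} (hfin : (zset F T (2 * T)).Finite) :
    GJ j F T = ∑ s ∈ hfin.toFinset, wj j F s := by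
  classical
  unfold GJ wj
  rw [Finset.sum_add_distrib, Finset.sum_add_distrib, Finset.sum_sub_distrib, ← Finset.mul_sum]
  congr 1
  · congr 1
    · congr 1
      · congr 1
        unfold NN
        rw [finsum_mem_eq_finite_toFinset_sum _ hfin]
        push_cast; rfl
      · unfold Nd
        rw [Set.ncard_eq_toFinset_card _ hfin, Finset.sum_const, nsmul_eq_mul]
        ring
    · unfold EX
      rw [finsum_mem_eq_finite_toFinset_sum _ hfin]
      push_cast; rfl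
  · rw [← Finset.mul_sum]
    congr 1
    unfold NF
    have : {s : ℂ | s ∈ zset F T (2 * T) ∧ s.re ≠ 1 / 2} =
        ((hfin.toFinset.filter (fun s => s.re ≠ 1 / 2) : Finset ℂ) : Set ℂ) := by
      ext s
      simp
    rw [this, Set.ncard_coe_finset, Finset.card_filter]
    push_cast
    refine Finset.sum_congr rfl fun s _ => ?_
    by_cases h : s.re = 1 / 2
    · rw [if_pos h, if_neg (fun h' => h' h)]
    · rw [if_neg h, if_pos h]

/-- upper bound for the weight -/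
lemma wj_le (j : ℕ) (F : ℂ → ℂ) (s : ℂ) (hm : 1 ≤ mult F s) :
    wj j F s ≤ (if s.re = 1 / 2 then
      (if mult F s ≤ j + 1 then (mult F s : ℝ) ^ 2
        else 2 * ((j : ℝ) + 1) * (mult F s : ℝ) - ((j : ℝ) + 1) ^ 2)
      else 2 * ((j : ℝ) + 1) * (mult F s : ℝ) - ((j : ℝ) + 1) ^ 2 / 2) := by
  unfold wj
  have hm1 : (1 : ℝ) ≤ mult F s := by exact_mod_cast hm
  by_cases h0 : s.re = 1 / 2
  · rw [if_pos h0, if_pos h0, if_pos h0]
    by_cases h2 : mult F s ≤ j + 1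
    · rw [if_pos h2]
      have h3 : ((mult F s - (j + 1) : ℕ) : ℝ) = 0 := by
        rw [Nat.sub_eq_zero_of_le h2]; norm_num
      rw [h3]
      have h4 : 0 ≤ ((mult F s : ℝ) - j) * ((mult F s : ℝ) - j - 1) := by
        rcases Nat.lt_or_ge (mult F s) (j + 1) with h5 | h5
        · have h6 : (mult F s : ℝ) ≤ j := by exact_mod_cast Nat.lt_succ_iff.mp h5
          exact mul_nonneg_of_nonpos_of_nonpos (by linarith) (by linarith)
        · have h6 : (j : ℝ) + 1 ≤ mult F s := by exact_mod_cast h5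
          exact mul_nonneg (by linarith) (by linarith)
      nlinarith
    · rw [if_neg h2]
      have h3 : ((mult F s - (j + 1) : ℕ) : ℝ) = (mult F s : ℝ) - (j + 1) := by
        rw [Nat.cast_sub (by omega)]; push_cast; ring
      rw [h3]
      nlinarith
  · rw [if_neg h0, if_neg h0, if_neg h0]
    have h3 : ((mult F s - 1 : ℕ) : ℝ) = (mult F s : ℝ) - 1 := by rw [Nat.cast_sub hm, Nat.cast_one]
    rw [h3]
    nlinarith

lemma wj_edge (j : ℕ) (F : ℂ → ℂ) (T : ℝ) (hT : 0 ≤ T) (s : ℂ) (hm : 1 ≤ mult F s)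
    (him : |(zz s).im| ≤ 1 / 2) (X : ℝ) (hX : X ≤ max (wj j F s) 0) :
    X ≤ tj j F T s + (6 * ((j : ℝ) + 1) + ((j : ℝ) + 1) ^ 2) * (mult F s : ℝ) := by
  obtain ⟨k, hk⟩ : ∃ k : ℝ, k = (j : ℝ) + 1 := ⟨_, rfl⟩
  have hk1 : 1 ≤ k := by rw [hk]; linarith [(Nat.cast_nonneg j : (0 : ℝ) ≤ j)]
  have hk0 : 0 < k := by linarith
  have hm1 : (1 : ℝ) ≤ mult F s := by exact_mod_cast hm
  obtain ⟨m, hmd⟩ : ∃ m : ℝ, m = (mult F s : ℝ) := ⟨_, rfl⟩
  have hw := wj_le j F s hm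
  rw [← hmd] at hm1 hw ⊢
  have hwu : wj j F s ≤ 2 * k * m := by
    refine hw.trans ?_
    rw [← hk]
    split_ifs with h1 h2
    · have h3 : m ≤ k := by rw [hmd, hk]; exact_mod_cast h2
      nlinarith
    · nlinarith
    · nlinarith
  have hmax : X ≤ 2 * k * m := hX.trans (max_le hwu (by positivity))
  have hcre : -2 ≤ (cc T (zz s)).re := by
    have h3 := cc_bound T hT (zz s) him
    have h4 := Complex.abs_re_le_norm (cc T (zz s))
    linarith [neg_abs_le (cc T (zz s)).re]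
  have hmc : -(2 * m) ≤ m * (cc T (zz s)).re := by nlinarith
  have htj : -(4 * k * m) - k ^ 2 ≤ tj j F T s := by
    unfold tj
    rw [← hk, ← hmd]
    have e0 : 0 ≤ 4 * k * m := by positivity
    have e1 : 0 ≤ k ^ 2 := by positivity
    have e2 : -(4 * k * m) ≤ 2 * k * (m * (cc T (zz s)).re) := by nlinarith
    split_ifs with h1 h2
    · have : 0 ≤ (m * (cc T (zz s)).re) ^ 2 := sq_nonneg _
      linarith
    · linarith
    · linarith
  have hkm : k ^ 2 ≤ k ^ 2 * m := by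
    have : 0 ≤ k ^ 2 := by positivity
    nlinarith
  rw [← hk]
  linarith

lemma wj_mid (j : ℕ) (F : ℂ → ℂ) (T : ℝ) (hT : 0 ≤ T) (s : ℂ) (hm : 1 ≤ mult F s) (e : ℝ)
    (he0 : 0 ≤ e) (hc : 1 - 2 * e ≤ (cc T (zz s)).re) :
    wj j F s ≤ tj j F T s + 4 * ((j : ℝ) + 1) * e * (mult F s : ℝ) := by
  obtain ⟨k, hk⟩ : ∃ k : ℝ, k = (j : ℝ) + 1 := ⟨_, rfl⟩
  have hk1 : 1 ≤ k := by rw [hk]; linarith [(Nat.cast_nonneg j : (0 : ℝ) ≤ j)]
  have hk0 : 0 < k := by linarith
  have hm1 : (1 : ℝ) ≤ mult F s := by exact_mod_cast hm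
  obtain ⟨m, hmd⟩ : ∃ m : ℝ, m = (mult F s : ℝ) := ⟨_, rfl⟩
  have hw := wj_le j F s hm
  refine hw.trans ?_
  unfold tj
  rw [← hk, ← hmd]
  rw [← hmd] at hm1
  obtain ⟨c, hcd⟩ : ∃ c : ℝ, c = (cc T (zz s)).re := ⟨_, rfl⟩
  rw [← hcd] at hc ⊢
  have hmm : 0 ≤ m := by linarith
  have e1 : 2 * k * m - 2 * k * (m * c) ≤ 4 * k * e * m := by
    have : 0 ≤ 2 * k * m := by positivity
    calc 2 * k * m - 2 * k * (m * c) = 2 * k * m * (1 - c) := by ring
      _ ≤ 2 * k * m * (2 * e) := mul_le_mul_of_nonneg_left (by linarith) this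
      _ = _ := by ring
  by_cases h1 : s.re = 1 / 2
  · rw [if_pos h1, if_pos h1]
    have him : (zz s).im = 0 := by rw [H385.PerChi.zz_im, h1]; ring
    have hzr : zz s = (((zz s).re : ℝ) : ℂ) := by
      apply Complex.ext
      · simp
      · simp [him]
    have h4 := cc_real T (zz s).re hT
    rw [← hzr, ← hcd] at h4
    obtain ⟨_, c1, c2⟩ := h4
    by_cases h2 : mult F s ≤ j + 1
    · rw [if_pos h2, if_pos h2]
      have h3 : m ≤ k := by rw [hmd, hk]; exact_mod_cast h2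
      have e2 : m ^ 2 - (m * c) ^ 2 ≤ 4 * k * e * m := by
        calc m ^ 2 - (m * c) ^ 2 = m * m * ((1 - c) * (1 + c)) := by ring
          _ ≤ m * k * ((2 * e) * 2) := by
              refine mul_le_mul (mul_le_mul_of_nonneg_left h3 hmm) ?_ ?_ (by positivity)
              · exact mul_le_mul (by linarith) (by linarith) (by linarith) (by positivity)
              · exact mul_nonneg (by linarith) (by linarith)
          _ = _ := by ring
      linarith
    · rw [if_neg h2, if_neg h2]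
      linarith
  · rw [if_neg h1, if_neg h1]
    linarith

theorem per_chi_j (j : ℕ) (γ : ℝ) (h0 : 0 < γ) (hπ : γ < Real.pi) (A : ℝ) (hA : 1 ≤ A) :
    ∃ C : ℝ, 0 < C ∧ ∀ (Q : ℝ) (F : ℂ → ℂ) (a : ℕ → ℂ), 1 ≤ Q → GoodU A Q F a →
    ∀ T κ Λ V1 V2 : ℝ, 3 ≤ κ → 8 * κ ≤ T → 1 ≤ Λ → T - 3 * κ ≤ V1 → V1 ≤ T - 3 * κ + 1 →
      2 * T + 3 * κ - 1 ≤ V2 → V2 ≤ 2 * T + 3 * κ →
      GJ j F T ≤
        (2 / (Real.sqrt Real.pi * Λ)) * (∫ u in (0 : ℝ)..Λ, Rw γ (u / Λ) *
          ∫ t : ℝ, ‖BB F V1 V2 T u t‖ ^ 2)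
        + C * (κ + T * Real.exp (-κ ^ 2 / 2)) * Real.log (Q * T) := by
  classical
  obtain ⟨C0, hC0, hcount⟩ := zcount_long A hA
  obtain ⟨k, hk⟩ : ∃ k : ℝ, k = (j : ℝ) + 1 := ⟨_, rfl⟩
  have hk1 : 1 ≤ k := by rw [hk]; linarith [(Nat.cast_nonneg j : (0 : ℝ) ≤ j)]
  obtain ⟨K2, hK2⟩ : ∃ K2 : ℝ, K2 = 6 * k + k ^ 2 := ⟨_, rfl⟩
  have hK20 : 0 < K2 := by rw [hK2]; positivity
  refine ⟨16 * k * C0 + 16 * K2 * C0, by positivity, ?_⟩
  intro Q F a hQ hFU T κ Λ V1 V2 hκ hκT hΛ hV1 hV1' hV2 hV2'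
  have hF := goodL hA hQ hFU
  have hfin : (zset F T (2 * T)).Finite := H370.zset_finite hF T _ (by linarith)
  rw [GJ_eq j hfin]
  have hV1pos : 15 ≤ V1 := by linarith
  have hT24 : 24 ≤ T := by linarith
  have hfinV : (zset F V1 V2).Finite := H370.zset_finite hF V1 V2 (by linarith)
  have htr := trace_part_j j γ h0 hπ hF T Λ V1 V2 (by linarith) (by linarith) (by linarith) hfinV
  set e := Real.exp (-κ ^ 2 / 2) with he
  have he0 : 0 < e := Real.exp_pos _
  -- counts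
  have hNV := hcount Q F a hQ hFU V1 V2 (by linarith) (by linarith)
  have hNa := hcount Q F a hQ hFU V1 (T + κ) (by linarith) (by linarith)
  have hNb := hcount Q F a hQ hFU (2 * T - κ) V2 (by linarith) (by linarith)
  set L := Real.log (Q * T) with hL
  have hL0 : 0 ≤ L := Real.log_nonneg (by nlinarith)
  have l1 : Real.log (Q * V2) ≤ 2 * L := log_bd hQ (by linarith) (by linarith) (by linarith)
  have l2 : Real.log (Q * (T + κ)) ≤ 2 * L := log_bd hQ (by linarith) (by linarith) (by linarith)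
  have aux : ∀ x y z w : ℝ, 0 ≤ y → x ≤ y → z ≤ 2 * L → 0 ≤ z → w ≤ C0 * x * z →
      w ≤ C0 * y * (2 * L) := by
    intro x y z w hy hxy hz hz0 hw
    refine hw.trans ?_
    have h1 : C0 * x * z ≤ C0 * y * z := by gcongr
    refine h1.trans ?_
    gcongr
  have p1 : 0 ≤ Real.log (Q * V2) := Real.log_nonneg (by nlinarith)
  have p2 : 0 ≤ Real.log (Q * (T + κ)) := Real.log_nonneg (by nlinarith)
  have b1 : (NN F V1 V2 : ℝ) ≤ C0 * (2 * T) * (2 * L) :=
    aux _ _ _ _ (by linarith) (by linarith) l1 p1 hNV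
  have b2 : (NN F V1 (T + κ) : ℝ) ≤ C0 * (4 * κ) * (2 * L) :=
    aux _ _ _ _ (by linarith) (by linarith) l2 p2 hNa
  have b3 : (NN F (2 * T - κ) V2 : ℝ) ≤ C0 * (4 * κ) * (2 * L) :=
    aux _ _ _ _ (by linarith) (by linarith) l1 p1 hNb
  -- sums over zeros
  have hmulti : ∀ s ∈ hfinV.toFinset, 1 ≤ mult F s := by
    intro s hs
    rw [Set.Finite.mem_toFinset] at hs
    exact H370.Loc.mult_pos' hF (by linarith [hs.2.2.1]) hs.2.2.2.2
  have n1 : (NN F V1 V2 : ℝ) = ∑ s ∈ hfinV.toFinset, (mult F s : ℝ) := by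
    unfold NN
    rw [finsum_mem_eq_finite_toFinset_sum _ hfinV]
    push_cast; rfl
  have n2 : (NN F V1 (T + κ) : ℝ) =
      ∑ s ∈ hfinV.toFinset, if s.im ≤ T + κ then (mult F s : ℝ) else 0 := by
    have hf : (zset F V1 (T + κ)).Finite := H370.zset_finite hF V1 _ (by linarith)
    unfold NN
    rw [finsum_mem_eq_finite_toFinset_sum _ hf, ← Finset.sum_filter]
    push_cast
    refine Finset.sum_congr ?_ fun _ _ => rfl
    ext s
    simp only [Finset.mem_filter, Set.Finite.mem_toFinset]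
    constructor
    · rintro ⟨h1, h2, h3, h4, h5⟩
      exact ⟨⟨h1, h2, h3, by linarith, h5⟩, h4⟩
    · rintro ⟨⟨h1, h2, h3, h4, h5⟩, h6⟩
      exact ⟨h1, h2, h3, h6, h5⟩
  have n3 : (NN F (2 * T - κ) V2 : ℝ) =
      ∑ s ∈ hfinV.toFinset, if 2 * T - κ < s.im then (mult F s : ℝ) else 0 := by
    have hf : (zset F (2 * T - κ) V2).Finite := H370.zset_finite hF _ _ (by linarith)
    unfold NN
    rw [finsum_mem_eq_finite_toFinset_sum _ hf, ← Finset.sum_filter]
    push_cast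
    refine Finset.sum_congr ?_ fun _ _ => rfl
    ext s
    simp only [Finset.mem_filter, Set.Finite.mem_toFinset]
    constructor
    · rintro ⟨h1, h2, h3, h4, h5⟩
      exact ⟨⟨h1, h2, by linarith, h4, h5⟩, h3⟩
    · rintro ⟨⟨h1, h2, h3, h4, h5⟩, h6⟩
      exact ⟨h1, h2, h6, h4, h5⟩
  have n4 : ∑ s ∈ hfin.toFinset, wj j F s =
      ∑ s ∈ hfinV.toFinset, if T < s.im ∧ s.im ≤ 2 * T then wj j F s else 0 := by
    rw [← Finset.sum_filter]
    refine Finset.sum_congr ?_ fun _ _ => rfl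
    ext s
    simp only [Finset.mem_filter, Set.Finite.mem_toFinset]
    constructor
    · rintro ⟨h1, h2, h3, h4, h5⟩
      exact ⟨⟨h1, h2, by linarith, by linarith, h5⟩, h3, h4⟩
    · rintro ⟨⟨h1, h2, h3, h4, h5⟩, h6, h7⟩
      exact ⟨h1, h2, h6, h7, h5⟩
  have hpt : ∀ s ∈ hfinV.toFinset, (if T < s.im ∧ s.im ≤ 2 * T then wj j F s else 0) ≤
      tj j F T s + 4 * k * e * (mult F s : ℝ) +
        K2 * (if s.im ≤ T + κ then (mult F s : ℝ) else 0) +
        K2 * (if 2 * T - κ < s.im then (mult F s : ℝ) else 0) := by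
    intro s hs
    have hm := hmulti s hs
    have hm' : (1 : ℝ) ≤ (mult F s : ℝ) := by exact_mod_cast hm
    rw [Set.Finite.mem_toFinset] at hs
    have him : |(zz s).im| ≤ 1 / 2 := by
      rw [H385.PerChi.zz_im, abs_le]; constructor <;> linarith [hs.1, hs.2.1]
    have hX3 : (if T < s.im ∧ s.im ≤ 2 * T then wj j F s else 0) ≤ max (wj j F s) 0 := by
      split_ifs
      · exact le_max_left _ _
      · exact le_max_right _ _
    have hedge := wj_edge j F T (by linarith) s hm him _ hX3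
    rw [← hk, ← hK2] at hedge
    have h6 : 0 ≤ 4 * k * e * (mult F s : ℝ) := by positivity
    by_cases c1 : s.im ≤ T + κ
    · rw [if_pos c1]
      have h7 : 0 ≤ K2 * (if 2 * T - κ < s.im then (mult F s : ℝ) else 0) := by
        split_ifs <;> positivity
      linarith
    · rw [if_neg c1]
      by_cases c2 : 2 * T - κ < s.im
      · rw [if_pos c2]
        linarith
      · rw [if_neg c2, if_pos ⟨by push Not at c1; linarith, by push Not at c2; linarith⟩]
        push Not at c1 c2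
        have h8 := cc_near T κ (by linarith) (zz s) him (by rw [H385.PerChi.zz_re]; linarith)
          (by rw [H385.PerChi.zz_re]; linarith)
        have h9 : 1 - 2 * e ≤ (cc T (zz s)).re := by
          have h10 := Complex.abs_re_le_norm (cc T (zz s) - 1)
          rw [Complex.sub_re, Complex.one_re] at h10
          linarith [neg_abs_le ((cc T (zz s)).re - 1)]
        have h11 := wj_mid j F T (by linarith) s hm e he0.le h9
        rw [← hk] at h11
        linarith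
  have hsum := Finset.sum_le_sum hpt
  rw [← n4] at hsum
  rw [Finset.sum_add_distrib, Finset.sum_add_distrib, Finset.sum_add_distrib, ← Finset.mul_sum,
    ← Finset.mul_sum, ← Finset.mul_sum, ← n1, ← n2, ← n3] at hsum
  calc ∑ s ∈ hfin.toFinset, wj j F s ≤ _ := hsum
    _ ≤ (2 / (Real.sqrt Real.pi * Λ)) * (∫ u in (0 : ℝ)..Λ, Rw γ (u / Λ) *
          ∫ t : ℝ, ‖BB F V1 V2 T u t‖ ^ 2) + 4 * k * e * (C0 * (2 * T) * (2 * L)) +
          K2 * (C0 * (4 * κ) * (2 * L)) + K2 * (C0 * (4 * κ) * (2 * L)) := by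
        gcongr
    _ ≤ _ := by
        have q1 : 0 ≤ k * C0 * κ * L := by positivity
        have q2 : 0 ≤ K2 * C0 * (T * e) * L := by positivity
        have : (16 * k * C0 + 16 * K2 * C0) * (κ + T * e) * L =
          16 * (k * C0 * κ * L) + 16 * (k * C0 * (T * e) * L) + 16 * (K2 * C0 * κ * L) +
            16 * (K2 * C0 * (T * e) * L) := by ring
        rw [this]
        have e1 : 4 * k * e * (C0 * (2 * T) * (2 * L)) = 16 * (k * C0 * (T * e) * L) := by ring
        have e2 : K2 * (C0 * (4 * κ) * (2 * L)) = 8 * (K2 * C0 * κ * L) := by ring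
        rw [e1, e2]
        linarith

end Pool.Agent.D0H77.EM
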